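import Mathlib

set_option autoImplicit false

/-! A winding argument on a rectangle. -/

namespace V1171.MLZ

open Filter Topology Set Complex

theorem int_const (r : ℝ → ℝ) (hr : Continuous r) (u v : ℝ)
    (h : ∀ t ∈ uIcc u v, ∃ n : ℤ, r t = n) : r u = r v := by
  by_contra hne
  obtain ⟨n, hn⟩ := h u left_mem_uIcc
  obtain ⟨m, hm⟩ := h v right_mem_uIcc
  have hnm : n ≠ m := by
    rintro rfl
    exact hne (hn.trans hm.symm)
  have hiv := intermediate_value_uIcc (a := u) (b := v) (f := r) hr.continuousOn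
  rcases lt_or_gt_of_ne hnm with hlt | hlt
  · have h1 : (n : ℝ) + 1 ≤ m := by exact_mod_cast hlt
    have h2 : (n : ℝ) + 1 / 2 ∈ uIcc (r u) (r v) := by
      rw [hn, hm, uIcc_of_le (by linarith)]
      constructor <;> linarith
    obtain ⟨t, ht, ht2⟩ := hiv h2
    obtain ⟨k, hk⟩ := h t ht
    rw [hk] at ht2
    have h3 : ((2 * k : ℤ) : ℝ) = ((2 * n + 1 : ℤ) : ℝ) := by push_cast; linarith
    have h4 : (2 * k : ℤ) = 2 * n + 1 := by exact_mod_cast h3
    omega
  · have h1 : (m : ℝ) + 1 ≤ n := by exact_mod_cast hlt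
    have h2 : (m : ℝ) + 1 / 2 ∈ uIcc (r u) (r v) := by
      rw [hn, hm, uIcc_of_ge (by linarith)]
      constructor <;> linarith
    obtain ⟨t, ht, ht2⟩ := hiv h2
    obtain ⟨k, hk⟩ := h t ht
    rw [hk] at ht2
    have h3 : ((2 * k : ℤ) : ℝ) = ((2 * m + 1 : ℤ) : ℝ) := by push_cast; linarith
    have h4 : (2 * k : ℤ) = 2 * m + 1 := by exact_mod_cast h3
    omega

theorem exists_zero (F : ℝ → ℝ → ℂ) (a T : ℝ) (ha : a < 1) (hT1 : 2 * Real.pi < T)
    (hT2 : T < 3 * Real.pi)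
    (hF : ContinuousOn (fun p : ℝ × ℝ => F p.1 p.2) (Icc a 1 ×ˢ Icc 0 T))
    (h0 : ∀ α ∈ Icc a 1, F α 0 = 1)
    (h1 : ∀ τ ∈ Icc 0 T, F 1 τ = cexp (τ * I))
    (h2 : ∀ α ∈ Icc a 1, 0 < (F α T).im)
    (h3 : ∀ τ ∈ Ioc 0 T, 0 < (F a τ).im) :
    ∃ α ∈ Ioo a 1, ∃ τ ∈ Ioc 0 T, F α τ = 0 := by
  have hpi := Real.pi_pos
  have hT : 0 < T := by linarith
  by_contra hcon
  push Not at hcon
  have hnz : ∀ α ∈ Icc a 1, ∀ τ ∈ Icc 0 T, F α τ ≠ 0 := by
    intro α hα τ hτ hz
    rcases eq_or_lt_of_le hτ.1 with h | h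
    · rw [← h, h0 α hα] at hz
      exact one_ne_zero hz
    rcases eq_or_lt_of_le hα.1 with h' | h'
    · have := h3 τ ⟨h, hτ.2⟩
      rw [h', hz] at this
      simp at this
    rcases eq_or_lt_of_le hα.2 with h'' | h''
    · rw [h'', h1 τ hτ] at hz
      exact Complex.exp_ne_zero _ hz
    exact hcon α ⟨h', h''⟩ τ ⟨h, hτ.2⟩ hz
  set c : ℝ × ℝ → ℝ × ℝ := fun p => ((projIcc a 1 ha.le p.1 : ℝ), (projIcc 0 T hT.le p.2 : ℝ))
    with hc
  have hcc : Continuous c := by
    apply Continuous.prodMk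
    · exact continuous_subtype_val.comp (continuous_projIcc.comp continuous_fst)
    · exact continuous_subtype_val.comp (continuous_projIcc.comp continuous_snd)
  have hcm : ∀ p, c p ∈ Icc a 1 ×ˢ Icc 0 T := fun p =>
    ⟨(projIcc a 1 ha.le p.1).2, (projIcc 0 T hT.le p.2).2⟩
  have hce : ∀ α ∈ Icc a 1, ∀ τ ∈ Icc 0 T, c (α, τ) = (α, τ) := by
    intro α hα τ hτ
    rw [hc]
    simp only
    rw [projIcc_of_mem _ hα, projIcc_of_mem _ hτ]
  have hG : Continuous fun p : ℝ × ℝ => F (c p).1 (c p).2 :=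
    hF.comp_continuous hcc hcm
  have hm1 : (1 : ℝ) ∈ Icc a 1 := ⟨ha.le, le_refl _⟩
  have hma : a ∈ Icc a 1 := ⟨le_refl _, ha.le⟩
  have hm0 : (0 : ℝ) ∈ Icc 0 T := ⟨le_refl _, hT.le⟩
  have hmT : T ∈ Icc 0 T := ⟨hT.le, le_refl _⟩
  obtain ⟨L, ⟨hL0, hL⟩, -⟩ := Complex.isCoveringMapOn_exp.existsUnique_continuousMap_lifts
    (⟨fun p : ℝ × ℝ => F (c p).1 (c p).2, hG⟩ : C(ℝ × ℝ, ℂ)) (a₀ := (1, 0)) (e₀ := 0)
    (by
      simp only [ContinuousMap.coe_mk]
      rw [hce 1 hm1 0 hm0, Complex.exp_zero, h0 1 hm1])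
    (by
      intro p
      exact hnz _ (hcm p).1 _ (hcm p).2)
  have hLe : ∀ α ∈ Icc a 1, ∀ τ ∈ Icc 0 T, cexp (L (α, τ)) = F α τ := by
    intro α hα τ hτ
    have := congrFun hL (α, τ)
    simp only [Function.comp, ContinuousMap.coe_mk] at this
    rw [this, hce α hα τ hτ]
  have hLc : Continuous L := L.continuous
  -- edge alpha = 1
  have e1 : (L (1, T)).im = T := by
    have := int_const (fun t => ((L (1, t)).im - t) / (2 * Real.pi)) (by fun_prop) 0 T (by
      intro t ht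
      rw [uIcc_of_le hT.le] at ht
      have h := hLe 1 hm1 t ht
      rw [h1 t ht, Complex.exp_eq_exp_iff_exists_int] at h
      obtain ⟨n, hn⟩ := h
      refine ⟨n, ?_⟩
      rw [hn]
      simp)
    simp only [hL0, zero_im, sub_zero, zero_div] at this
    have h5 := this.symm
    rw [div_eq_zero_iff] at h5
    rcases h5 with h5 | h5
    · linarith
    · exfalso; linarith
  -- edge tau = 0
  have e2 : (L (a, 0)).im = 0 := by
    have := int_const (fun t => ((L (t, 0)).im) / (2 * Real.pi)) (by fun_prop) a 1 (by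
      intro t ht
      rw [uIcc_of_le ha.le] at ht
      have h := hLe t ht 0 hm0
      rw [h0 t ht, Complex.exp_eq_one_iff] at h
      obtain ⟨n, hn⟩ := h
      refine ⟨n, ?_⟩
      rw [hn]
      simp)
    simp only [hL0, zero_im, zero_div] at this
    have h5 := this
    rw [div_eq_zero_iff] at h5
    rcases h5 with h5 | h5
    · linarith
    · exfalso; linarith
  have him : ∀ α ∈ Icc a 1, ∀ τ ∈ Icc 0 T,
      (F α τ).im = Real.exp (L (α, τ)).re * Real.sin (L (α, τ)).im := by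
    intro α hα τ hτ
    rw [← hLe α hα τ hτ, Complex.exp_im]
  -- edge tau = T
  have e3 : 2 * Real.pi < (L (a, T)).im := by
    by_contra hle
    push Not at hle
    have hiv := intermediate_value_uIcc (a := a) (b := 1) (f := fun t => (L (t, T)).im)
      (Continuous.continuousOn (by fun_prop))
    have hmem : 2 * Real.pi ∈ uIcc ((L (a, T)).im) ((L (1, T)).im) := by
      rw [e1, uIcc_of_le (by linarith)]
      exact ⟨hle, hT1.le⟩
    obtain ⟨t, ht, ht2⟩ := hiv hmem
    rw [uIcc_of_le ha.le] at ht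
    have h := h2 t ht
    rw [him t ht T hmT] at h
    simp only at ht2
    rw [ht2, Real.sin_two_pi, mul_zero] at h
    exact lt_irrefl _ h
  -- edge alpha = a
  have hiv := intermediate_value_uIcc (a := 0) (b := T) (f := fun t => (L (a, t)).im)
      (Continuous.continuousOn (by fun_prop))
  have hmem : 3 * Real.pi / 2 ∈ uIcc ((L (a, 0)).im) ((L (a, T)).im) := by
    rw [e2, uIcc_of_le (by linarith)]
    constructor <;> linarith
  obtain ⟨t, ht, ht2⟩ := hiv hmem
  rw [uIcc_of_le hT.le] at ht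
  simp only at ht2
  have ht0 : 0 < t := by
    rcases eq_or_lt_of_le ht.1 with h | h
    · rw [← h, e2] at ht2
      linarith
    · exact h
  have h := h3 t ⟨ht0, ht.2⟩
  rw [him a hma t ht, ht2] at h
  have hs : Real.sin (3 * Real.pi / 2) = -1 := by
    have : 3 * Real.pi / 2 = Real.pi / 2 + Real.pi := by ring
    rw [this, Real.sin_add_pi, Real.sin_pi_div_two]
  rw [hs] at h
  have := Real.exp_pos (L (a, t)).re
  linarith

end V1171.MLZ
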