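import Pool.Agent.V1171.MLZ.Rect

set_option autoImplicit false

/-! The contour identity behind the integral representation of the Mittag-Leffler function on the
imaginary axis. -/

namespace V1171.MLZ

open MeasureTheory Filter Topology Set Complex

noncomputable def den (α : ℝ) (z : ℂ) : ℂ := cexp (α * z) + cexp (-(α * z))

noncomputable def Kd (a z : ℂ) : ℂ := 1 - cexp (z - a)

noncomputable def qf (α y : ℝ) : ℝ :=
  Real.sinh (α * y) / (Real.cosh (2 * (α * y)) + Real.cos (2 * (Real.pi * α)))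

lemma den_diff (α : ℝ) : Differentiable ℂ (den α) := by unfold den; fun_prop

lemma Kd_diff (a : ℂ) : Differentiable ℂ (Kd a) := by unfold Kd; fun_prop

lemma den_zero {α θ : ℝ} (h1 : 2 / 3 ≤ α) (h2 : α < 1) (hθ : 2 * (α * θ) = Real.pi) {z : ℂ}
    (hz : |z.im| < 5 * Real.pi / 4) (h : den α z = 0) : z = θ * I ∨ z = -(θ * I) := by
  have hpi := Real.pi_pos
  have hα : (0 : ℝ) < α := by linarith
  unfold den at h
  have h3 : cexp (2 * (α * z)) = -1 := by
    have h4 : cexp (α * z) = - cexp (-(α * z)) := by linear_combination h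
    have h5 : cexp (α * z) * cexp (-(α * z)) = 1 := by rw [← Complex.exp_add]; simp
    have h6 : cexp (-(α * z)) = - cexp (α * z) := by linear_combination h
    rw [two_mul, Complex.exp_add]
    rw [h6] at h5
    linear_combination -h5
  rw [← Complex.exp_pi_mul_I, Complex.exp_eq_exp_iff_exists_int] at h3
  obtain ⟨n, hn⟩ := h3
  have him := congrArg Complex.im hn
  have hre := congrArg Complex.re hn
  simp at him hre
  have hre0 : z.re = 0 := by
    rcases hre with h | h
    · exact absurd h hα.ne'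
    · exact h
  rw [abs_lt] at hz
  have hu : (n : ℝ) < 1 := by
    by_contra hcon
    push Not at hcon
    nlinarith [mul_pos hα hpi]
  have hl : (-2 : ℝ) < n := by
    by_contra hcon
    push Not at hcon
    nlinarith [mul_pos hα hpi]
  have hn0 : n = 0 ∨ n = -1 := by
    have h8 : n < 1 := by exact_mod_cast hu
    have h9 : -2 < n := by exact_mod_cast hl
    omega
  rcases hn0 with rfl | rfl
  · left
    apply Complex.ext
    · simp [hre0]
    · simp at him ⊢
      have : 2 * α * (z.im - θ) = 0 := by linear_combination him - hθ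
      rcases mul_eq_zero.mp this with h | h
      · linarith
      · linarith
  · right
    apply Complex.ext
    · simp [hre0]
    · simp at him ⊢
      have : 2 * α * (z.im + θ) = 0 := by linear_combination him + hθ
      rcases mul_eq_zero.mp this with h | h
      · linarith
      · linarith

lemma Kd_zero {a z : ℂ} (ha : |a.im| ≤ 3 * Real.pi / 4) (hz : |z.im| < 5 * Real.pi / 4)
    (h : Kd a z = 0) : z = a := by
  have hpi := Real.pi_pos
  unfold Kd at h
  have h3 : cexp (z - a) = 1 := by linear_combination -h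
  rw [Complex.exp_eq_one_iff] at h3
  obtain ⟨n, hn⟩ := h3
  have him := congrArg Complex.im hn
  simp at him
  rw [abs_lt] at hz
  rw [abs_le] at ha
  have hu : (n : ℝ) < 1 := by
    by_contra hcon
    push Not at hcon
    nlinarith
  have hl : (-1 : ℝ) < n := by
    by_contra hcon
    push Not at hcon
    nlinarith
  have hn0 : n = 0 := by
    have h8 : n < 1 := by exact_mod_cast hu
    have h9 : -1 < n := by exact_mod_cast hl
    omega
  rw [hn0] at hn
  simp at hn
  exact sub_eq_zero.mp hn

lemma lim_zero (h : ℂ → ℂ) (c : ℂ) (hc : ContinuousAt h c) :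
    Tendsto (fun z => (z - c) * h z) (𝓝[≠] c) (𝓝 0) := by
  have h1 : ContinuousAt (fun z => (z - c) * h z) c := by
    apply ContinuousAt.mul _ hc
    fun_prop
  have h2 := h1.tendsto.mono_left (nhdsWithin_le_nhds (s := {c}ᶜ))
  simpa using h2

lemma lim_mul (u D : ℂ → ℂ) (c d : ℂ) (hu : ContinuousAt u c) (hD : HasDerivAt D d c)
    (h0 : D c = 0) (hd : d ≠ 0) :
    Tendsto (fun z => (z - c) * (u z * (D z)⁻¹)) (𝓝[≠] c) (𝓝 (u c * d⁻¹)) := by
  have h1 := (hu.tendsto.mono_left (nhdsWithin_le_nhds (s := {c}ᶜ))).mul (lim_inv D c d hD h0 hd)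
  refine h1.congr ?_
  intro z
  ring

lemma Kd_deriv (a : ℂ) : HasDerivAt (Kd a) (-1) a := by
  unfold Kd
  have h1 : HasDerivAt (fun z : ℂ => z - a) 1 a := (hasDerivAt_id a).sub_const a
  have h2 := (h1.cexp).const_sub 1
  simpa using h2

lemma Kd_self (a : ℂ) : Kd a a = 0 := by simp [Kd]

lemma den_deriv (α : ℝ) (z : ℂ) :
    HasDerivAt (den α) (α * (cexp (α * z) - cexp (-(α * z)))) z := by
  unfold den
  have h1 : HasDerivAt (fun z : ℂ => (α : ℂ) * z) α z := by
    simpa using (hasDerivAt_id z).const_mul (α : ℂ)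
  exact (h1.cexp.add h1.fun_neg.cexp).congr_deriv (by ring)

lemma exp_half {α θ : ℝ} (hθ : 2 * (α * θ) = Real.pi) : cexp (α * (θ * I)) = I := by
  have : (α : ℂ) * (θ * I) = Real.pi / 2 * I := by
    rw [← hθ]
    push_cast
    ring
  rw [this, Complex.exp_pi_div_two_mul_I]

lemma exp_half_neg {α θ : ℝ} (hθ : 2 * (α * θ) = Real.pi) : cexp (-(α * (θ * I))) = -I := by
  rw [Complex.exp_neg, exp_half hθ, inv_I]

lemma cos_bd {α : ℝ} (h1 : 2 / 3 ≤ α) (h2 : α < 1) : -(1 / 2) ≤ Real.cos (2 * (Real.pi * α)) := by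
  have hpi := Real.pi_pos
  have h3 : Real.cos (Real.pi * α) ≤ -(1 / 2) := by
    have h4 : Real.cos (Real.pi * α) ≤ Real.cos (2 * Real.pi / 3) := by
      apply Real.cos_le_cos_of_nonneg_of_le_pi
      · positivity
      · nlinarith
      · nlinarith
    have h5 : Real.cos (2 * Real.pi / 3) = -(1 / 2) := by
      have : 2 * Real.pi / 3 = Real.pi - Real.pi / 3 := by ring
      rw [this, Real.cos_pi_sub, Real.cos_pi_div_three]
    linarith
  rw [Real.cos_two_mul]
  nlinarith

lemma qden_pos {α : ℝ} (h1 : 2 / 3 ≤ α) (h2 : α < 1) (y : ℝ) :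
    Real.exp (2 * (α * |y|)) / 4 ≤ Real.cosh (2 * (α * y)) + Real.cos (2 * (Real.pi * α)) := by
  have hα : (0 : ℝ) < α := by linarith
  have h3 := cos_bd h1 h2
  have h4 : Real.cosh (2 * (α * y)) = Real.cosh (2 * (α * |y|)) := by
    rw [← Real.cosh_abs, abs_mul, abs_mul, abs_of_pos hα, abs_two]
  have h5 : 1 ≤ Real.cosh (2 * (α * |y|)) := Real.one_le_cosh _
  have h6 : Real.cosh (2 * (α * |y|)) ≥ Real.exp (2 * (α * |y|)) / 2 := by
    rw [Real.cosh_eq]
    have := Real.exp_pos (-(2 * (α * |y|)))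
    linarith
  rw [h4]
  linarith

lemma qf_bd {α : ℝ} (h1 : 2 / 3 ≤ α) (h2 : α < 1) (y : ℝ) :
    |qf α y| ≤ 2 * Real.exp (-(α * |y|)) := by
  have hα : (0 : ℝ) < α := by linarith
  have h3 := qden_pos h1 h2 y
  have h4 : 0 < Real.exp (2 * (α * |y|)) / 4 := by positivity
  unfold qf
  rw [abs_div, abs_of_pos (h4.trans_le h3), div_le_iff₀ (h4.trans_le h3)]
  have h5 : |Real.sinh (α * y)| ≤ Real.exp (α * |y|) / 2 := by
    rw [Real.abs_sinh, abs_mul, abs_of_pos hα, Real.sinh_eq]
    have := Real.exp_pos (-(α * |y|))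
    linarith
  have h6 : 2 * Real.exp (-(α * |y|)) * (Real.exp (2 * (α * |y|)) / 4) = Real.exp (α * |y|) / 2 := by
    have : Real.exp (2 * (α * |y|)) = Real.exp (α * |y|) * Real.exp (α * |y|) := by
      rw [← Real.exp_add]; ring_nf
    rw [this]
    have h7 : Real.exp (-(α * |y|)) * Real.exp (α * |y|) = 1 := by
      rw [← Real.exp_add]; simp
    linear_combination (Real.exp (α * |y|) / 2) * h7
  have h8 := mul_le_mul_of_nonneg_left h3 (by positivity : 0 ≤ 2 * Real.exp (-(α * |y|)))
  linarith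

lemma qf_cont {α : ℝ} (h1 : 2 / 3 ≤ α) (h2 : α < 1) : Continuous (qf α) := by
  unfold qf
  apply Continuous.div
  · exact Real.continuous_sinh.comp (by fun_prop)
  · exact (Real.continuous_cosh.comp (by fun_prop)).add continuous_const
  · intro y
    have h3 := qden_pos h1 h2 y
    have h4 : 0 < Real.exp (2 * (α * |y|)) / 4 := by positivity
    linarith

lemma exp_abs_int {α : ℝ} (hα : 0 < α) : Integrable fun y : ℝ => Real.exp (-(α * |y|)) := by
  rw [← integrableOn_univ, ← Iic_union_Ioi (a := (0 : ℝ)), integrableOn_union]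
  constructor
  · have h := integrableOn_exp_mul_Iic (a := α) hα 0
    refine h.congr_fun (fun y hy => ?_) measurableSet_Iic
    simp only [abs_of_nonpos (mem_Iic.mp hy)]
    ring_nf
  · have h := integrableOn_exp_mul_Ioi (a := -α) (by linarith) 0
    refine h.congr_fun (fun y hy => ?_) measurableSet_Ioi
    simp only [abs_of_pos (mem_Ioi.mp hy)]
    ring_nf

lemma qf_int {α : ℝ} (h1 : 2 / 3 ≤ α) (h2 : α < 1) : Integrable (qf α) := by
  have hα : (0 : ℝ) < α := by linarith
  apply Integrable.mono' ((exp_abs_int hα).const_mul 2) (qf_cont h1 h2).aestronglyMeasurable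
  exact Eventually.of_forall fun y => by
    rw [Real.norm_eq_abs]
    exact qf_bd h1 h2 y


/-- value of the difference of the two horizontal traces -/
lemma den_diff_inv {α : ℝ} (h1 : 2 / 3 ≤ α) (h2 : α < 1) {θ : ℝ} (hθ : 2 * (α * θ) = Real.pi)
    (y : ℝ) :
    (den α (y - Real.pi * I))⁻¹ - (den α (y + Real.pi * I))⁻¹ =
      ((2 * Real.sin (Real.pi * α) * qf α y : ℝ) : ℂ) * I := by
  have hpi := Real.pi_pos
  have hα : (0 : ℝ) < α := by linarith
  have hθ1 : θ < Real.pi := by nlinarith
  have hθ0 : 0 < θ := by nlinarith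
  have hn1 : den α (y - Real.pi * I) ≠ 0 := by
    intro h
    rcases den_zero h1 h2 hθ (by simp [abs_of_pos hpi]; linarith) h with h | h
    · have := congrArg Complex.im h
      simp at this
      linarith
    · have := congrArg Complex.im h
      simp at this
      linarith
  have hn2 : den α (y + Real.pi * I) ≠ 0 := by
    intro h
    rcases den_zero h1 h2 hθ (by simp [abs_of_pos hpi]; linarith) h with h | h
    · have := congrArg Complex.im h
      simp at this
      linarith
    · have := congrArg Complex.im h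
      simp at this
      linarith
  have hq : (Real.cosh (2 * (α * y)) + Real.cos (2 * (Real.pi * α)) : ℝ) ≠ 0 := by
    have h3 := qden_pos h1 h2 y
    have h4 : 0 < Real.exp (2 * (α * |y|)) / 4 := by positivity
    linarith
  set E := cexp (α * y) with hE
  set E' := cexp (-(α * y)) with hE'
  set w := cexp (Real.pi * α * I) with hw
  set w' := cexp (-(Real.pi * α * I)) with hw'
  have e1 : den α (y - Real.pi * I) = E * w' + E' * w := by
    unfold den
    rw [hE, hE', hw, hw', ← Complex.exp_add, ← Complex.exp_add]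
    ring_nf
  have e2 : den α (y + Real.pi * I) = E * w + E' * w' := by
    unfold den
    rw [hE, hE', hw, hw', ← Complex.exp_add, ← Complex.exp_add]
    ring_nf
  have hEE : E * E' = 1 := by rw [hE, hE', ← Complex.exp_add]; simp
  have hww : w * w' = 1 := by rw [hw, hw', ← Complex.exp_add]; simp
  have hs : (Real.sinh (α * y) : ℂ) = (E - E') / 2 := by
    rw [Complex.ofReal_sinh, Complex.sinh]
    push_cast
    rfl
  have hc : (Real.cosh (2 * (α * y)) : ℂ) = (E ^ 2 + E' ^ 2) / 2 := by
    rw [Complex.ofReal_cosh, Complex.cosh, hE, hE', ← Complex.exp_nat_mul, ← Complex.exp_nat_mul]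
    push_cast
    ring_nf
  have hsn : (Real.sin (Real.pi * α) : ℂ) = (w' - w) * I / 2 := by
    rw [Complex.ofReal_sin, Complex.sin]
    push_cast
    rw [hw, hw', neg_mul]
  have hcs : (Real.cos (2 * (Real.pi * α)) : ℂ) = (w ^ 2 + w' ^ 2) / 2 := by
    rw [Complex.ofReal_cos, Complex.cos, hw, hw', ← Complex.exp_nat_mul, ← Complex.exp_nat_mul]
    push_cast
    ring_nf
  have hqc : (E ^ 2 + E' ^ 2) / 2 + (w ^ 2 + w' ^ 2) / 2 ≠ 0 := by
    rw [← hc, ← hcs]
    exact_mod_cast hq
  rw [e1] at hn1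
  rw [e2] at hn2
  rw [e1, e2]
  unfold qf
  push_cast
  push_cast at hs hc hsn hcs
  rw [hs, hc, hsn, hcs]
  have e3 : (E * w' + E' * w) * (E * w + E' * w') = 2 * ((E ^ 2 + E' ^ 2) / 2 + (w ^ 2 + w' ^ 2) / 2) := by
    linear_combination (E ^ 2 + E' ^ 2) * hww + (w ^ 2 + w' ^ 2) * hEE
  rw [inv_sub_inv hn1 hn2, e3]
  field_simp
  ring_nf
  rw [I_sq]
  ring

end V1171.MLZ
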