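import Pool.Agent.V1171.MLZ.Ident

set_option autoImplicit false

/-! The partial fraction identity. -/

namespace V1171.MLZ

open MeasureTheory Filter Topology Set Complex

lemma Kd_cont (a : ℂ) {z : ℂ} (h : Kd a z ≠ 0) : ContinuousAt (fun z => (Kd a z)⁻¹) z :=
  (Kd_diff a).continuous.continuousAt.inv₀ h

lemma den_cont (α : ℝ) {z : ℂ} (h : den α z ≠ 0) : ContinuousAt (fun z => (den α z)⁻¹) z :=
  (den_diff α).continuous.continuousAt.inv₀ h

lemma Gf_lim_x {α θ : ℝ} (h1 : 2 / 3 ≤ α) (h2 : α < 1) (hθ : 2 * (α * θ) = Real.pi) (x : ℝ)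
    (rp rm : ℂ) :
    Tendsto (fun z => (z - x) * Gf α x θ (den α x)⁻¹ rp rm z) (𝓝[≠] (x : ℂ)) (𝓝 0) := by
  have hpi := Real.pi_pos
  obtain ⟨ht1, ht2⟩ := abs_theta h1 h2 hθ
  have hb := theta_bd h1 h2 hθ
  have hx : |(x : ℂ).im| < 5 * Real.pi / 4 := by simp; positivity
  have hθ0 : θ ≠ 0 := by intro h; rw [h] at hb; linarith [hb.1]
  have hk2 : Kd (θ * I) x ≠ 0 := fun h => by
    have := congrArg Complex.im (Kd_zero ht1 hx h)
    simp at this
    exact hθ0 this.symm
  have hk3 : Kd (-(θ * I)) x ≠ 0 := fun h => by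
    have := congrArg Complex.im (Kd_zero ht2 hx h)
    simp at this
    exact hθ0 this
  have t1 := lim_mul (fun z => (den α z)⁻¹ - (den α x)⁻¹) (Kd x) x (-1)
    ((den_cont α (den_ne_real α x)).sub_const _) (Kd_deriv x) (Kd_self x) (by norm_num)
  have t2 := lim_zero (fun z => rp * (Kd (θ * I) z)⁻¹ + rm * (Kd (-(θ * I)) z)⁻¹) x
    (((Kd_cont _ hk2).const_mul rp).add ((Kd_cont _ hk3).const_mul rm))
  have t3 := t1.add t2
  simp only [sub_self, zero_mul, add_zero] at t3
  refine t3.congr fun z => ?_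
  unfold Gf
  ring

lemma Gf_lim_p {α θ : ℝ} (h1 : 2 / 3 ≤ α) (h2 : α < 1) (hθ : 2 * (α * θ) = Real.pi) (x : ℝ)
    (A rm : ℂ) :
    Tendsto (fun z => (z - θ * I) * Gf α x θ A ((Kd x (θ * I))⁻¹ * (2 * α * I)⁻¹) rm z)
      (𝓝[≠] ((θ : ℂ) * I)) (𝓝 0) := by
  have hpi := Real.pi_pos
  have hα : (0 : ℝ) < α := by linarith
  obtain ⟨ht1, ht2⟩ := abs_theta h1 h2 hθ
  have hb := theta_bd h1 h2 hθ
  have hθ0 : θ ≠ 0 := by intro h; rw [h] at hb; linarith [hb.1]
  have hin : |((θ : ℂ) * I).im| < 5 * Real.pi / 4 := by linarith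
  have hk1 : Kd x (θ * I) ≠ 0 := fun h => by
    have := congrArg Complex.im (Kd_zero (by simp; positivity) hin h)
    simp at this
    exact hθ0 this
  have hk3 : Kd (-(θ * I)) (θ * I) ≠ 0 := fun h => by
    have := congrArg Complex.im (Kd_zero ht2 hin h)
    simp at this
    apply hθ0
    linarith
  have hd : HasDerivAt (den α) (2 * α * I) (θ * I) := by
    refine (den_deriv α (θ * I)).congr_deriv ?_
    rw [exp_half hθ, exp_half_neg hθ]
    ring
  have hd0 : den α (θ * I) = 0 := by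
    unfold den
    rw [exp_half hθ, exp_half_neg hθ]
    ring
  have hαc : (2 * α * I : ℂ) ≠ 0 := by
    have : (α : ℂ) ≠ 0 := by exact_mod_cast hα.ne'
    simp [this, I_ne_zero]
  have t1 := lim_mul (fun z => (Kd x z)⁻¹) (den α) (θ * I) (2 * α * I)
    (Kd_cont _ hk1) hd hd0 hαc
  have t2 := lim_zero (fun z => -A * (Kd x z)⁻¹ + rm * (Kd (-(θ * I)) z)⁻¹) (θ * I)
    (((Kd_cont _ hk1).const_mul (-A)).add ((Kd_cont _ hk3).const_mul rm))
  have t3 := lim_mul (fun _ => (Kd x (θ * I))⁻¹ * (2 * α * I)⁻¹) (Kd (θ * I)) (θ * I) (-1)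
    continuousAt_const (Kd_deriv _) (Kd_self _) (by norm_num)
  have t4 := (t1.add t2).add t3
  have e : (Kd x (θ * I))⁻¹ * (2 * α * I)⁻¹ + 0 + (Kd x (θ * I))⁻¹ * (2 * α * I)⁻¹ * (-1)⁻¹ = 0 := by
    norm_num
  rw [e] at t4
  refine t4.congr fun z => ?_
  unfold Gf
  ring

lemma Gf_lim_m {α θ : ℝ} (h1 : 2 / 3 ≤ α) (h2 : α < 1) (hθ : 2 * (α * θ) = Real.pi) (x : ℝ)
    (A rp : ℂ) :
    Tendsto (fun z => (z - -(θ * I)) *
      Gf α x θ A rp ((Kd x (-(θ * I)))⁻¹ * (-(2 * α * I))⁻¹) z)
      (𝓝[≠] (-((θ : ℂ) * I))) (𝓝 0) := by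
  have hpi := Real.pi_pos
  have hα : (0 : ℝ) < α := by linarith
  obtain ⟨ht1, ht2⟩ := abs_theta h1 h2 hθ
  have hb := theta_bd h1 h2 hθ
  have hθ0 : θ ≠ 0 := by intro h; rw [h] at hb; linarith [hb.1]
  have hin : |(-((θ : ℂ) * I)).im| < 5 * Real.pi / 4 := by linarith
  have hk1 : Kd x (-(θ * I)) ≠ 0 := fun h => by
    have := congrArg Complex.im (Kd_zero (by simp; positivity) hin h)
    simp at this
    exact hθ0 this
  have hk3 : Kd (θ * I) (-(θ * I)) ≠ 0 := fun h => by
    have := congrArg Complex.im (Kd_zero ht1 hin h)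
    simp at this
    apply hθ0
    linarith
  have e1 : cexp (α * -(θ * I)) = -I := by
    rw [mul_neg, exp_half_neg hθ]
  have e2 : cexp (-(α * -(θ * I))) = I := by
    rw [mul_neg, neg_neg, exp_half hθ]
  have hd : HasDerivAt (den α) (-(2 * α * I)) (-(θ * I)) := by
    refine (den_deriv α (-(θ * I))).congr_deriv ?_
    rw [e1, e2]
    ring
  have hd0 : den α (-(θ * I)) = 0 := by
    unfold den
    rw [e1, e2]
    ring
  have hαc : (-(2 * α * I) : ℂ) ≠ 0 := by
    have : (α : ℂ) ≠ 0 := by exact_mod_cast hα.ne'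
    simp [this, I_ne_zero]
  have t1 := lim_mul (fun z => (Kd x z)⁻¹) (den α) (-(θ * I)) (-(2 * α * I))
    (Kd_cont _ hk1) hd hd0 hαc
  have t2 := lim_zero (fun z => -A * (Kd x z)⁻¹ + rp * (Kd (θ * I) z)⁻¹) (-(θ * I))
    (((Kd_cont _ hk1).const_mul (-A)).add ((Kd_cont _ hk3).const_mul rp))
  have t3 := lim_mul (fun _ => (Kd x (-(θ * I)))⁻¹ * (-(2 * α * I))⁻¹) (Kd (-(θ * I)))
    (-(θ * I)) (-1) continuousAt_const (Kd_deriv _) (Kd_self _) (by norm_num)
  have t4 := (t1.add t2).add t3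
  have e : (Kd x (-(θ * I)))⁻¹ * (-(2 * α * I))⁻¹ + 0 +
      (Kd x (-(θ * I)))⁻¹ * (-(2 * α * I))⁻¹ * (-1)⁻¹ = 0 := by
    norm_num
  rw [e] at t4
  refine t4.congr fun z => ?_
  unfold Gf
  ring

lemma Hf_int {α : ℝ} (h1 : 2 / 3 ≤ α) (h2 : α < 1) (x : ℝ) : Integrable (Hf α x) := by
  apply Integrable.mono' (qf_int h1 h2).norm
  · apply Continuous.aestronglyMeasurable
    unfold Hf
    apply (qf_cont h1 h2).div
    · exact continuous_const.add (Real.continuous_exp.comp (by fun_prop))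
    · intro y
      positivity
  · refine Eventually.of_forall fun y => ?_
    unfold Hf
    rw [norm_div]
    apply div_le_self (norm_nonneg _)
    rw [Real.norm_of_nonneg (by positivity)]
    have := Real.exp_pos (y - x)
    linarith

/-- the complex form of the identity -/
lemma contour_complex {α θ : ℝ} (h1 : 2 / 3 ≤ α) (h2 : α < 1) (hθ : 2 * (α * θ) = Real.pi)
    (x : ℝ) :
    ((2 * Real.sin (Real.pi * α) * ∫ y, Hf α x y : ℝ) : ℂ) * I =
      I * (2 * Real.pi * ((Kd x (θ * I))⁻¹ * (2 * α * I)⁻¹ +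
        (Kd x (-(θ * I)))⁻¹ * (-(2 * α * I))⁻¹ - (den α x)⁻¹)) := by
  have hpi := Real.pi_pos
  have hb := theta_bd h1 h2 hθ
  have hθ0 : 0 < θ := by linarith [hb.1]
  set A := (den α x)⁻¹ with hA
  set rp := (Kd x (θ * I))⁻¹ * (2 * α * I)⁻¹ with hrp
  set rm := (Kd x (-(θ * I)))⁻¹ * (-(2 * α * I))⁻¹ with hrm
  set G := Gf α x θ A rp rm with hG
  have hGd := Gf_diff h1 h2 hθ x A rp rm
  have key : ∀ R : ℝ, |x| < R → (∫ y in (-R)..R, ((2 * Real.sin (Real.pi * α) * Hf α x y : ℝ) : ℂ) * I) +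
      I * (∫ v in (-Real.pi)..Real.pi, G (R + v * I)) -
      I * (∫ v in (-Real.pi)..Real.pi, G (-R + v * I)) = 0 := by
    intro R hR
    have hR0 : 0 < R := (abs_nonneg x).trans_lt hR
    have h := rect_zero ({(x : ℂ), θ * I, -(θ * I)} : Finset ℂ) (5 * Real.pi / 4) R hR0
      (by linarith) G hGd
      (by
        intro c hc
        simp only [Finset.mem_insert, Finset.mem_singleton] at hc
        rcases hc with rfl | rfl | rfl
        · exact Gf_lim_x h1 h2 hθ x rp rm
        · exact Gf_lim_p h1 h2 hθ x A rm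
        · exact Gf_lim_m h1 h2 hθ x A rp)
      (by
        intro c hc
        simp only [Finset.mem_insert, Finset.mem_singleton] at hc
        rcases hc with rfl | rfl | rfl
        · simpa using ⟨hR, hpi⟩
        · simp [abs_of_pos hθ0, hR0]
          linarith [hb.2]
        · simp [abs_of_pos hθ0, hR0]
          linarith [hb.2])
    have hc1 : Continuous fun y : ℝ => G (y - Real.pi * I) := by
      refine hGd.continuousOn.comp_continuous (by fun_prop) fun y => ?_
      refine ⟨?_, ?_⟩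
      · simp [abs_of_pos hpi]
        linarith
      · intro hm
        simp only [Finset.coe_insert, Finset.coe_singleton, mem_insert_iff,
          mem_singleton_iff] at hm
        rcases hm with hm | hm | hm
        · have := congrArg Complex.im hm
          simp at this
        · have := congrArg Complex.im hm
          simp at this
          linarith
        · have := congrArg Complex.im hm
          simp at this
          linarith [hb.2]
    have hc2 : Continuous fun y : ℝ => G (y + Real.pi * I) := by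
      refine hGd.continuousOn.comp_continuous (by fun_prop) fun y => ?_
      refine ⟨?_, ?_⟩
      · simp [abs_of_pos hpi]
        linarith
      · intro hm
        simp only [Finset.coe_insert, Finset.coe_singleton, mem_insert_iff,
          mem_singleton_iff] at hm
        rcases hm with hm | hm | hm
        · have := congrArg Complex.im hm
          simp at this
        · have := congrArg Complex.im hm
          simp at this
          linarith [hb.2]
        · have := congrArg Complex.im hm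
          simp at this
          linarith [hb.2]
    rw [← intervalIntegral.integral_sub (hc1.intervalIntegrable _ _)
      (hc2.intervalIntegrable _ _)] at h
    rw [intervalIntegral.integral_congr (g := fun y : ℝ => G (y - Real.pi * I) - G (y + Real.pi * I))
      (fun y _ => (Gf_hor h1 h2 hθ x A rp rm y).symm)]
    exact h
  have hint : Integrable fun y : ℝ => ((2 * Real.sin (Real.pi * α) * Hf α x y : ℝ) : ℂ) * I :=
    (((Hf_int h1 h2 x).const_mul _).ofReal).mul_const I
  have T1 := intervalIntegral_tendsto_integral hint tendsto_neg_atTop_atBot tendsto_id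
  have T2 := (Gf_right h1 x θ A rp rm).const_mul I
  have T3 := (Gf_left h1 x θ A rp rm).const_mul I
  have T4 := (T1.add T2).sub T3
  have T5 : Tendsto (fun _ : ℝ => (0 : ℂ)) atTop (𝓝 ((∫ y : ℝ, ((2 * Real.sin (Real.pi * α) * Hf α x y : ℝ) : ℂ) * I) + I * 0 - I * (2 * Real.pi * (rp + rm - A)))) := by
    refine T4.congr' ?_
    filter_upwards [eventually_gt_atTop |x|] with R hR
    exact key R hR
  have h := tendsto_nhds_unique T5 tendsto_const_nhds
  have e : (∫ y : ℝ, ((2 * Real.sin (Real.pi * α) * Hf α x y : ℝ) : ℂ) * I) =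
      ((2 * Real.sin (Real.pi * α) * ∫ y, Hf α x y : ℝ) : ℂ) * I := by
    rw [integral_mul_const, integral_complex_ofReal, integral_const_mul]
  rw [e] at h
  linear_combination h

/-- the real form -/
theorem contour {α θ : ℝ} (h1 : 2 / 3 ≤ α) (h2 : α < 1) (hθ : 2 * (α * θ) = Real.pi)
    (x : ℝ) :
    (Real.exp (α * x) + Real.exp (-(α * x)))⁻¹ =
      Real.exp x * Real.sin θ / (α * (Real.exp x ^ 2 - 2 * Real.exp x * Real.cos θ + 1)) -
        Real.sin (Real.pi * α) / Real.pi * ∫ y, Hf α x y := by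
  have hpi := Real.pi_pos
  have hα : (0 : ℝ) < α := by linarith
  have h := contour_complex h1 h2 hθ x
  have hd : den α x = ((Real.exp (α * x) + Real.exp (-(α * x)) : ℝ) : ℂ) := by
    unfold den
    push_cast
    rfl
  have hD : 0 < Real.exp x ^ 2 - 2 * Real.exp x * Real.cos θ + 1 := by
    have h3 : 0 < Real.sin θ := by
      have hb := theta_bd h1 h2 hθ
      exact Real.sin_pos_of_pos_of_lt_pi (by linarith [hb.1]) (by linarith [hb.2])
    have h4 := Real.sin_sq_add_cos_sq θ
    nlinarith [sq_nonneg (Real.exp x * Real.cos θ - 1), mul_pos (Real.exp_pos x) h3,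
      sq_nonneg (Real.exp x - Real.cos θ), mul_pos h3 h3]
  set s : ℂ := ((Real.exp x : ℝ) : ℂ) with hs
  have hs0 : s ≠ 0 := by
    rw [hs]
    exact_mod_cast (Real.exp_pos x).ne'
  set u := cexp (θ * I) with hu
  set u' := cexp (-(θ * I)) with hu'
  have huu : u * u' = 1 := by rw [hu, hu', ← Complex.exp_add]; simp
  have k1 : Kd x (θ * I) = 1 - u / s := by
    unfold Kd
    rw [Complex.exp_sub, hs, Complex.ofReal_exp]
  have k2 : Kd x (-(θ * I)) = 1 - u' / s := by
    unfold Kd
    rw [Complex.exp_sub, hs, Complex.ofReal_exp]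
  have hcs : (Real.cos θ : ℂ) = (u + u') / 2 := by
    rw [Complex.ofReal_cos, Complex.cos, hu, hu', neg_mul]
  have hsn : (Real.sin θ : ℂ) = (u' - u) * I / 2 := by
    rw [Complex.ofReal_sin, Complex.sin, hu, hu', neg_mul]
  have hDc : s ^ 2 - 2 * s * ((u + u') / 2) + 1 ≠ 0 := by
    rw [← hcs, hs]
    exact_mod_cast hD.ne'
  have hfac : (s - u) * (s - u') = s ^ 2 - 2 * s * ((u + u') / 2) + 1 := by
    linear_combination huu
  have hsu : s - u ≠ 0 := fun h => hDc (by rw [← hfac, h, zero_mul])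
  have hsu' : s - u' ≠ 0 := fun h => hDc (by rw [← hfac, h, mul_zero])
  have hαc : (α : ℂ) ≠ 0 := by exact_mod_cast hα.ne'
  have k3 : (Kd x (θ * I))⁻¹ = s / (s - u) := by
    rw [k1, one_sub_div hs0, inv_div]
  have k4 : (Kd x (-(θ * I)))⁻¹ = s / (s - u') := by
    rw [k2, one_sub_div hs0, inv_div]
  have hr : (Kd x (θ * I))⁻¹ * (2 * α * I)⁻¹ + (Kd x (-(θ * I)))⁻¹ * (-(2 * α * I))⁻¹ =
      ((Real.exp x * Real.sin θ / (α * (Real.exp x ^ 2 - 2 * Real.exp x * Real.cos θ + 1)) : ℝ) : ℂ)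
      := by
    rw [k3, k4]
    push_cast
    rw [← Complex.ofReal_exp, ← hs, ← Complex.ofReal_cos, ← Complex.ofReal_sin, hcs, hsn, ← hfac,
      inv_neg]
    have hI : (2 * α * I : ℂ)⁻¹ = -I / (2 * α) := by
      rw [mul_inv, Complex.inv_I]
      field_simp
    rw [hI]
    field_simp
    ring
  rw [hr, hd] at h
  have h5 : (((2 * Real.sin (Real.pi * α) * ∫ y, Hf α x y : ℝ) : ℂ)) =
      ((2 * Real.pi * (Real.exp x * Real.sin θ /
        (α * (Real.exp x ^ 2 - 2 * Real.exp x * Real.cos θ + 1)) -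
        (Real.exp (α * x) + Real.exp (-(α * x)))⁻¹) : ℝ) : ℂ) := by
    have hI := I_ne_zero
    apply mul_right_cancel₀ hI
    rw [h]
    push_cast
    ring
  have h6 := Complex.ofReal_injective h5
  have h7 : Real.sin (Real.pi * α) / Real.pi * ∫ y, Hf α x y =
      Real.exp x * Real.sin θ /
        (α * (Real.exp x ^ 2 - 2 * Real.exp x * Real.cos θ + 1)) -
        (Real.exp (α * x) + Real.exp (-(α * x)))⁻¹ := by
    rw [div_mul_eq_mul_div, div_eq_iff hpi.ne']
    linarith
  linarith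

end V1171.MLZ
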