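import Pool.Agent.V1171.MLZ.Contour

set_option autoImplicit false

/-! The contour identity: passing to the limit. -/

namespace V1171.MLZ

open MeasureTheory Filter Topology Set Complex

lemma Kd_right_norm (a z : ℂ) : Real.exp (z.re - a.re) - 1 ≤ ‖Kd a z‖ := by
  unfold Kd
  have h1 := norm_sub_norm_le (cexp (z - a)) 1
  rw [Complex.norm_exp, norm_one, sub_re, norm_sub_rev] at h1
  exact h1

lemma Kd_left_norm (a z : ℂ) : 1 - Real.exp (z.re - a.re) ≤ ‖Kd a z‖ := by
  unfold Kd
  have h1 := norm_sub_norm_le 1 (cexp (z - a))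
  rw [Complex.norm_exp, norm_one, sub_re] at h1
  exact h1

lemma den_norm {α : ℝ} (hα : 0 < α) (z : ℂ) : Real.exp (α * |z.re|) - 1 ≤ ‖den α z‖ := by
  unfold den
  rcases le_total 0 z.re with h | h
  · have h1 := norm_sub_norm_le (cexp (α * z)) (-cexp (-(α * z)))
    rw [norm_neg, Complex.norm_exp, Complex.norm_exp, sub_neg_eq_add] at h1
    have h2 : ((α : ℂ) * z).re = α * z.re := by simp
    have h3 : (-((α : ℂ) * z)).re = -(α * z.re) := by simp
    rw [h2, h3] at h1
    rw [abs_of_nonneg h]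
    have h4 : Real.exp (-(α * z.re)) ≤ 1 := by
      rw [Real.exp_le_one_iff]
      have := mul_nonneg hα.le h
      linarith
    linarith
  · have h1 := norm_sub_norm_le (cexp (-(α * z))) (-cexp (α * z))
    rw [norm_neg, Complex.norm_exp, Complex.norm_exp, sub_neg_eq_add, add_comm (cexp _)] at h1
    have h2 : ((α : ℂ) * z).re = α * z.re := by simp
    have h3 : (-((α : ℂ) * z)).re = -(α * z.re) := by simp
    rw [h2, h3] at h1
    rw [abs_of_nonpos h]
    have h4 : Real.exp (α * z.re) ≤ 1 := by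
      rw [Real.exp_le_one_iff]
      exact mul_nonpos_of_nonneg_of_nonpos hα.le h
    have h5 : Real.exp (α * -z.re) = Real.exp (-(α * z.re)) := by ring_nf
    linarith

lemma one_le_of_one_le {t : ℝ} (ht : 1 ≤ t) : 1 ≤ Real.exp t - 1 := by
  have := Real.add_one_le_exp t
  linarith

lemma exp_neg_one_le {t : ℝ} (ht : 1 ≤ t) : 1 / 2 ≤ 1 - Real.exp (-t) := by
  have h1 : Real.exp (-t) ≤ 1 / 2 := by
    have h2 := Real.add_one_le_exp t
    rw [Real.exp_neg]
    have : (2 : ℝ) ≤ Real.exp t := by linarith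
    have h3 := inv_anti₀ (by norm_num) this
    linarith
  linarith

noncomputable def Gf (α x θ : ℝ) (A rp rm : ℂ) (z : ℂ) : ℂ :=
  ((den α z)⁻¹ - A) * (Kd x z)⁻¹ + rp * (Kd (θ * I) z)⁻¹ + rm * (Kd (-(θ * I)) z)⁻¹

lemma Gf_meas (α x θ : ℝ) (A rp rm : ℂ) : Measurable (Gf α x θ A rp rm) := by
  unfold Gf
  have h1 := (den_diff α).continuous.measurable.inv
  have h2 := fun a => (Kd_diff a).continuous.measurable.inv
  exact (((h1.sub_const A).mul (h2 _)).add ((h2 _).const_mul rp)).add ((h2 _).const_mul rm)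

lemma Gf_norm (α x θ : ℝ) (A rp rm : ℂ) (z : ℂ) (C : ℝ) (h1 : ‖(den α z)⁻¹‖ ≤ 1)
    (h2 : ‖(Kd x z)⁻¹‖ ≤ C) (h3 : ‖(Kd (θ * I) z)⁻¹‖ ≤ C)
    (h4 : ‖(Kd (-(θ * I)) z)⁻¹‖ ≤ C) :
    ‖Gf α x θ A rp rm z‖ ≤ (1 + ‖A‖) * C + ‖rp‖ * C + ‖rm‖ * C := by
  unfold Gf
  refine (norm_add_le _ _).trans (add_le_add ((norm_add_le _ _).trans (add_le_add ?_ ?_)) ?_)
  · rw [norm_mul]
    refine mul_le_mul ((norm_sub_le _ _).trans (by linarith)) h2 (norm_nonneg _) (by positivity)
  · rw [norm_mul]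
    exact mul_le_mul_of_nonneg_left h3 (norm_nonneg _)
  · rw [norm_mul]
    exact mul_le_mul_of_nonneg_left h4 (norm_nonneg _)

lemma inv_norm_le {w : ℂ} {c : ℝ} (hc : 0 < c) (h : c ≤ ‖w‖) : ‖w⁻¹‖ ≤ c⁻¹ := by
  rw [norm_inv]
  exact inv_anti₀ hc h

lemma Kd_right_tendsto (a : ℂ) (v : ℝ) :
    Tendsto (fun R : ℝ => (Kd a (R + v * I))⁻¹) atTop (𝓝 0) := by
  rw [tendsto_zero_iff_norm_tendsto_zero]
  have h1 : Tendsto (fun R : ℝ => ‖Kd a (R + v * I)‖) atTop atTop := by
    refine tendsto_atTop_mono (f := fun R : ℝ => Real.exp (R - a.re) - 1) (fun R => ?_) ?_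
    · have := Kd_right_norm a (R + v * I)
      simpa using this
    · apply tendsto_atTop_add_const_right
      exact Real.tendsto_exp_atTop.comp (tendsto_atTop_add_const_right _ _ tendsto_id)
  refine h1.inv_tendsto_atTop.congr fun R => ?_
  simp [norm_inv]

lemma Kd_left_tendsto (a : ℂ) (v : ℝ) :
    Tendsto (fun R : ℝ => (Kd a (-R + v * I))⁻¹) atTop (𝓝 1) := by
  have h1 : Tendsto (fun R : ℝ => cexp (-R + v * I - a)) atTop (𝓝 0) := by
    rw [tendsto_zero_iff_norm_tendsto_zero]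
    have h2 : Tendsto (fun R : ℝ => Real.exp (-(R + a.re))) atTop (𝓝 0) :=
      Real.tendsto_exp_neg_atTop_nhds_zero.comp (tendsto_atTop_add_const_right _ _ tendsto_id)
    refine h2.congr fun R => ?_
    rw [Complex.norm_exp]
    congr 1
    simp
    ring
  have h3 := (h1.const_sub 1).inv₀ (by simp)
  simpa [Kd] using h3

lemma den_left_tendsto {α : ℝ} (hα : 0 < α) (v : ℝ) :
    Tendsto (fun R : ℝ => (den α (-R + v * I))⁻¹) atTop (𝓝 0) := by
  rw [tendsto_zero_iff_norm_tendsto_zero]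
  have h1 : Tendsto (fun R : ℝ => ‖den α (-R + v * I)‖) atTop atTop := by
    refine tendsto_atTop_mono (f := fun R : ℝ => Real.exp (α * |R|) - 1) (fun R => ?_) ?_
    · have := den_norm hα (-R + v * I)
      simpa using this
    · apply tendsto_atTop_add_const_right
      exact Real.tendsto_exp_atTop.comp (tendsto_abs_atTop_atTop.const_mul_atTop hα)
  refine h1.inv_tendsto_atTop.congr fun R => ?_
  simp [norm_inv]

lemma Gf_right {α : ℝ} (h1 : 2 / 3 ≤ α) (x θ : ℝ) (A rp rm : ℂ) :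
    Tendsto (fun R : ℝ => ∫ v in (-Real.pi)..Real.pi, Gf α x θ A rp rm (R + v * I)) atTop
      (𝓝 0) := by
  have hα : (0 : ℝ) < α := by linarith
  have e0 : (0 : ℂ) = ∫ _ in (-Real.pi)..Real.pi, (0 : ℂ) := by simp
  rw [e0]
  apply intervalIntegral.tendsto_integral_filter_of_dominated_convergence
    (fun _ => (1 + ‖A‖) * 1 + ‖rp‖ * 1 + ‖rm‖ * 1)
  · refine Eventually.of_forall fun R => ?_
    exact ((Gf_meas α x θ A rp rm).comp (by fun_prop)).aestronglyMeasurable
  · filter_upwards [eventually_ge_atTop (2 : ℝ), eventually_ge_atTop (x + 1)] with R hR2 hRx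
    refine Eventually.of_forall fun v _ => ?_
    apply Gf_norm _ _ _ _ _ _ _ _
    · have h := den_norm hα (R + v * I)
      have h' : (1 : ℝ) ≤ ‖den α (R + v * I)‖ := by
        refine le_trans ?_ h
        apply one_le_of_one_le
        simp only [add_re, ofReal_re, mul_re, I_re, mul_zero, ofReal_im, I_im, mul_one, sub_self,
          add_zero]
        rw [abs_of_nonneg (by linarith)]
        nlinarith
      simpa using inv_norm_le one_pos h'
    · have h := Kd_right_norm (x : ℂ) (R + v * I)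
      have h' : (1 : ℝ) ≤ ‖Kd x (R + v * I)‖ := by
        refine le_trans ?_ h
        apply one_le_of_one_le
        simp
        linarith
      simpa using inv_norm_le one_pos h'
    · have h := Kd_right_norm (θ * I : ℂ) (R + v * I)
      have h' : (1 : ℝ) ≤ ‖Kd (θ * I) (R + v * I)‖ := by
        refine le_trans ?_ h
        apply one_le_of_one_le
        simp
        linarith
      simpa using inv_norm_le one_pos h'
    · have h := Kd_right_norm (-(θ * I) : ℂ) (R + v * I)
      have h' : (1 : ℝ) ≤ ‖Kd (-(θ * I)) (R + v * I)‖ := by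
        refine le_trans ?_ h
        apply one_le_of_one_le
        simp
        linarith
      simpa using inv_norm_le one_pos h'
  · simp
  · refine Eventually.of_forall fun v _ => ?_
    have hden : Tendsto (fun R : ℝ => (den α (R + v * I))⁻¹) atTop (𝓝 0) := by
      rw [tendsto_zero_iff_norm_tendsto_zero]
      have h1 : Tendsto (fun R : ℝ => ‖den α (R + v * I)‖) atTop atTop := by
        refine tendsto_atTop_mono (f := fun R : ℝ => Real.exp (α * |R|) - 1) (fun R => ?_) ?_
        · have := den_norm hα (R + v * I)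
          simpa using this
        · apply tendsto_atTop_add_const_right
          exact Real.tendsto_exp_atTop.comp (tendsto_abs_atTop_atTop.const_mul_atTop hα)
      refine h1.inv_tendsto_atTop.congr fun R => ?_
      simp [norm_inv]
    have := (((hden.sub_const A).mul (Kd_right_tendsto x v)).add
      ((Kd_right_tendsto (θ * I) v).const_mul rp)).add
      ((Kd_right_tendsto (-(θ * I)) v).const_mul rm)
    simpa [Gf] using this

lemma Gf_left {α : ℝ} (h1 : 2 / 3 ≤ α) (x θ : ℝ) (A rp rm : ℂ) :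
    Tendsto (fun R : ℝ => ∫ v in (-Real.pi)..Real.pi, Gf α x θ A rp rm (-R + v * I)) atTop
      (𝓝 (2 * Real.pi * (rp + rm - A))) := by
  have hα : (0 : ℝ) < α := by linarith
  have e0 : (2 * Real.pi * (rp + rm - A)) = ∫ _ in (-Real.pi)..Real.pi, (rp + rm - A) := by
    simp only [intervalIntegral.integral_const, Complex.real_smul]
    push_cast
    ring
  rw [e0]
  apply intervalIntegral.tendsto_integral_filter_of_dominated_convergence
    (fun _ => (1 + ‖A‖) * 2 + ‖rp‖ * 2 + ‖rm‖ * 2)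
  · refine Eventually.of_forall fun R => ?_
    exact ((Gf_meas α x θ A rp rm).comp (by fun_prop)).aestronglyMeasurable
  · filter_upwards [eventually_ge_atTop (2 : ℝ), eventually_ge_atTop (-x + 1)] with R hR2 hRx
    refine Eventually.of_forall fun v _ => ?_
    apply Gf_norm _ _ _ _ _ _ _ _
    · have h := den_norm hα (-R + v * I)
      have h' : (1 : ℝ) ≤ ‖den α (-R + v * I)‖ := by
        refine le_trans ?_ h
        apply one_le_of_one_le
        simp only [add_re, neg_re, ofReal_re, mul_re, I_re, mul_zero, ofReal_im, I_im, mul_one,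
          sub_self, add_zero, abs_neg]
        rw [abs_of_nonneg (by linarith)]
        nlinarith
      simpa using inv_norm_le one_pos h'
    · have h := Kd_left_norm (x : ℂ) (-R + v * I)
      have h' : (1 / 2 : ℝ) ≤ ‖Kd x (-R + v * I)‖ := by
        refine le_trans ?_ h
        have h5 := exp_neg_one_le (t := R + x) (by linarith)
        refine h5.trans (le_of_eq ?_)
        simp
        ring_nf
      simpa using inv_norm_le (by norm_num) h'
    · have h := Kd_left_norm (θ * I : ℂ) (-R + v * I)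
      have h' : (1 / 2 : ℝ) ≤ ‖Kd (θ * I) (-R + v * I)‖ := by
        refine le_trans ?_ h
        have h5 := exp_neg_one_le (t := R) (by linarith)
        refine h5.trans (le_of_eq ?_)
        simp
      simpa using inv_norm_le (by norm_num) h'
    · have h := Kd_left_norm (-(θ * I) : ℂ) (-R + v * I)
      have h' : (1 / 2 : ℝ) ≤ ‖Kd (-(θ * I)) (-R + v * I)‖ := by
        refine le_trans ?_ h
        have h5 := exp_neg_one_le (t := R) (by linarith)
        refine h5.trans (le_of_eq ?_)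
        simp
      simpa using inv_norm_le (by norm_num) h'
  · simp
  · refine Eventually.of_forall fun v _ => ?_
    have hden := den_left_tendsto hα v
    have := (((hden.sub_const A).mul (Kd_left_tendsto x v)).add
      ((Kd_left_tendsto (θ * I) v).const_mul rp)).add
      ((Kd_left_tendsto (-(θ * I)) v).const_mul rm)
    have e : (0 - A) * 1 + rp * 1 + rm * 1 = rp + rm - A := by ring
    rw [e] at this
    simpa [Gf] using this

lemma Kd_per (a : ℂ) (y : ℝ) : Kd a (y - Real.pi * I) = Kd a (y + Real.pi * I) := by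
  unfold Kd
  congr 1
  have e1 : (y : ℂ) - Real.pi * I - a = (y - a) - Real.pi * I := by ring
  have e2 : (y : ℂ) + Real.pi * I - a = (y - a) + Real.pi * I := by ring
  rw [e1, e2, Complex.exp_sub, Complex.exp_add, Complex.exp_pi_mul_I, div_neg, div_one, mul_neg,
    mul_one]

lemma Kd_real (x y : ℝ) : Kd x (y + Real.pi * I) = ((1 + Real.exp (y - x) : ℝ) : ℂ) := by
  unfold Kd
  have e2 : (y : ℂ) + Real.pi * I - x = ((y - x : ℝ) : ℂ) + Real.pi * I := by push_cast; ring
  rw [e2, Complex.exp_add, Complex.exp_pi_mul_I, ← Complex.ofReal_exp]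
  push_cast
  ring

noncomputable def Hf (α x y : ℝ) : ℝ := qf α y / (1 + Real.exp (y - x))

lemma Gf_hor {α θ : ℝ} (h1 : 2 / 3 ≤ α) (h2 : α < 1) (hθ : 2 * (α * θ) = Real.pi) (x : ℝ)
    (A rp rm : ℂ) (y : ℝ) :
    Gf α x θ A rp rm (y - Real.pi * I) - Gf α x θ A rp rm (y + Real.pi * I) =
      ((2 * Real.sin (Real.pi * α) * Hf α x y : ℝ) : ℂ) * I := by
  unfold Gf
  rw [Kd_per, Kd_per, Kd_per]
  have h := den_diff_inv h1 h2 hθ y
  rw [Kd_real x y]
  have e : ((den α (y - Real.pi * I))⁻¹ - A) * (((1 + Real.exp (y - x) : ℝ) : ℂ))⁻¹ +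
      rp * (Kd (θ * I) (y + Real.pi * I))⁻¹ + rm * (Kd (-(θ * I)) (y + Real.pi * I))⁻¹ -
      (((den α (y + Real.pi * I))⁻¹ - A) * (((1 + Real.exp (y - x) : ℝ) : ℂ))⁻¹ +
      rp * (Kd (θ * I) (y + Real.pi * I))⁻¹ + rm * (Kd (-(θ * I)) (y + Real.pi * I))⁻¹) =
      ((den α (y - Real.pi * I))⁻¹ - (den α (y + Real.pi * I))⁻¹) *
        (((1 + Real.exp (y - x) : ℝ) : ℂ))⁻¹ := by ring
  rw [e, h]
  unfold Hf
  push_cast
  ring

lemma theta_bd {α θ : ℝ} (h1 : 2 / 3 ≤ α) (h2 : α < 1) (hθ : 2 * (α * θ) = Real.pi) :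
    Real.pi / 2 < θ ∧ θ ≤ 3 * Real.pi / 4 := by
  have hpi := Real.pi_pos
  have hθ0 : 0 < θ := by
    by_contra hcon
    push Not at hcon
    nlinarith
  constructor
  · nlinarith
  · nlinarith

lemma abs_theta {α θ : ℝ} (h1 : 2 / 3 ≤ α) (h2 : α < 1) (hθ : 2 * (α * θ) = Real.pi) :
    |((θ : ℂ) * I).im| ≤ 3 * Real.pi / 4 ∧ |(-((θ : ℂ) * I)).im| ≤ 3 * Real.pi / 4 := by
  have h := theta_bd h1 h2 hθ
  have hpi := Real.pi_pos
  have hθ0 : 0 < θ := by linarith [h.1]
  constructor
  · simp [abs_of_pos hθ0]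
    linarith [h.2]
  · simp [abs_of_pos hθ0]
    linarith [h.2]

lemma den_ne_real (α x : ℝ) : den α x ≠ 0 := by
  have : den α x = ((Real.exp (α * x) + Real.exp (-(α * x)) : ℝ) : ℂ) := by
    unfold den
    push_cast
    rfl
  rw [this]
  have h : (Real.exp (α * x) + Real.exp (-(α * x)) : ℝ) ≠ 0 := by positivity
  exact_mod_cast h

lemma Gf_diff {α θ : ℝ} (h1 : 2 / 3 ≤ α) (h2 : α < 1) (hθ : 2 * (α * θ) = Real.pi) (x : ℝ)
    (A rp rm : ℂ) :
    DifferentiableOn ℂ (Gf α x θ A rp rm) ({z : ℂ | |z.im| < 5 * Real.pi / 4} \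
      (({(x : ℂ), θ * I, -(θ * I)} : Finset ℂ) : Set ℂ)) := by
  have hpi := Real.pi_pos
  obtain ⟨ht1, ht2⟩ := abs_theta h1 h2 hθ
  rintro z ⟨hz, hzS⟩
  simp only [Finset.coe_insert, Finset.coe_singleton, mem_insert_iff, mem_singleton_iff,
    not_or] at hzS
  obtain ⟨hzx, hzp, hzm⟩ := hzS
  have hd : den α z ≠ 0 := by
    intro h
    rcases den_zero h1 h2 hθ hz h with h | h
    · exact hzp h
    · exact hzm h
  have hk1 : Kd x z ≠ 0 := fun h => hzx (Kd_zero (by simp; positivity) hz h)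
  have hk2 : Kd (θ * I) z ≠ 0 := fun h => hzp (Kd_zero ht1 hz h)
  have hk3 : Kd (-(θ * I)) z ≠ 0 := fun h => hzm (Kd_zero ht2 hz h)
  apply DifferentiableAt.differentiableWithinAt
  unfold Gf
  exact (((((den_diff α z).fun_inv hd).sub_const A).fun_mul ((Kd_diff _ z).fun_inv hk1)).fun_add
    (((Kd_diff _ z).fun_inv hk2).const_mul rp)).fun_add (((Kd_diff _ z).fun_inv hk3).const_mul rm)

end V1171.MLZ
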