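import Pool.Agent.V1171.MLZ.Repr

set_option autoImplicit false

/-! Sign information for the imaginary part. -/

namespace V1171.MLZ

open MeasureTheory Filter Topology Set Complex

noncomputable def gg (α τ y : ℝ) : ℝ :=
  (Real.exp (-(τ * Real.exp (-y))) - Real.exp (-(τ * Real.exp y))) * qf α y

lemma qf_neg (α y : ℝ) : qf α (-y) = -qf α y := by
  unfold qf
  rw [mul_neg, Real.sinh_neg, mul_neg, Real.cosh_neg, neg_div]

lemma fq_int {α τ : ℝ} (h1 : 2 / 3 ≤ α) (h2 : α < 1) (hτ : 0 < τ) :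
    Integrable fun y : ℝ => Real.exp (-(τ * Real.exp y)) * qf α y := by
  apply Integrable.mono' (qf_int h1 h2).abs
  · apply Continuous.aestronglyMeasurable
    have := qf_cont h1 h2
    fun_prop
  · refine Eventually.of_forall fun y => ?_
    rw [Real.norm_eq_abs, abs_mul, Real.abs_exp]
    apply mul_le_of_le_one_left (abs_nonneg _)
    rw [Real.exp_le_one_iff]
    have := mul_pos hτ (Real.exp_pos y)
    linarith

lemma fq_int' {α τ : ℝ} (h1 : 2 / 3 ≤ α) (h2 : α < 1) (hτ : 0 < τ) :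
    Integrable fun y : ℝ => Real.exp (-(τ * Real.exp (-y))) * qf α y := by
  apply Integrable.mono' (qf_int h1 h2).abs
  · apply Continuous.aestronglyMeasurable
    have := qf_cont h1 h2
    fun_prop
  · refine Eventually.of_forall fun y => ?_
    rw [Real.norm_eq_abs, abs_mul, Real.abs_exp]
    apply mul_le_of_le_one_left (abs_nonneg _)
    rw [Real.exp_le_one_iff]
    have := mul_pos hτ (Real.exp_pos (-y))
    linarith

lemma gg_int {α τ : ℝ} (h1 : 2 / 3 ≤ α) (h2 : α < 1) (hτ : 0 < τ) : Integrable (gg α τ) := by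
  have h := (fq_int' h1 h2 hτ).sub (fq_int h1 h2 hτ)
  refine h.congr (Eventually.of_forall fun y => ?_)
  simp only [Pi.sub_apply, gg]
  ring

lemma gg_even (α τ y : ℝ) : gg α τ |y| = gg α τ y := by
  rcases abs_choice y with h | h
  · rw [h]
  · rw [h]
    unfold gg
    rw [qf_neg, neg_neg]
    ring

lemma alg_eq {α τ : ℝ} (h1 : 2 / 3 ≤ α) (h2 : α < 1) (hτ : 0 < τ) :
    alg α τ = -∫ y in Ioi 0, gg α τ y := by
  have e1 : ∫ y, gg α τ y = 2 * ∫ y in Ioi 0, gg α τ y := by
    rw [← integral_comp_abs (f := gg α τ)]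
    simp only [gg_even]
  have e2 : ∫ y, gg α τ y = (∫ y, Real.exp (-(τ * Real.exp (-y))) * qf α y) -
      ∫ y, Real.exp (-(τ * Real.exp y)) * qf α y := by
    rw [← integral_sub (fq_int' h1 h2 hτ) (fq_int h1 h2 hτ)]
    congr 1
    funext y
    unfold gg
    ring
  have e3 : (∫ y, Real.exp (-(τ * Real.exp (-y))) * qf α y) = -alg α τ := by
    unfold alg
    rw [← integral_neg_eq_self (fun y => Real.exp (-(τ * Real.exp y)) * qf α y), ← integral_neg]
    congr 1
    funext y
    rw [qf_neg]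
    ring
  rw [e3] at e2
  unfold alg at e2 ⊢
  linarith

lemma gg_nonneg {α τ y : ℝ} (h1 : 2 / 3 ≤ α) (h2 : α < 1) (hτ : 0 < τ) (hy : 0 < y) :
    0 ≤ gg α τ y := by
  unfold gg
  apply mul_nonneg
  · rw [sub_nonneg, Real.exp_le_exp, neg_le_neg_iff]
    apply mul_le_mul_of_nonneg_left _ hτ.le
    rw [Real.exp_le_exp]
    linarith
  · unfold qf
    apply div_nonneg
    · rw [Real.sinh_nonneg_iff]
      have : (0 : ℝ) < α := by linarith
      positivity
    · have h3 := qden_pos h1 h2 y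
      have h4 : 0 < Real.exp (2 * (α * |y|)) / 4 := by positivity
      linarith

lemma alg_nonpos {α τ : ℝ} (h1 : 2 / 3 ≤ α) (h2 : α < 1) (hτ : 0 < τ) : alg α τ ≤ 0 := by
  rw [alg_eq h1 h2 hτ, neg_nonpos]
  exact setIntegral_nonneg measurableSet_Ioi fun y hy => gg_nonneg h1 h2 hτ hy

/-- lower bound of the kernel at `α = 2/3` -/
lemma qf_lower {y : ℝ} (hy : 16 ≤ Real.exp (2 * y)) :
    21 / 25 * Real.exp (-(2 / 3) * y) ≤ qf (2 / 3) y := by
  unfold qf
  set E := Real.exp (2 / 3 * y) with hE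
  have hE0 : 0 < E := Real.exp_pos _
  have e1 : Real.exp (-(2 / 3) * y) = E⁻¹ := by
    rw [hE, ← Real.exp_neg]; ring_nf
  have e2 : Real.sinh (2 / 3 * y) = (E - E⁻¹) / 2 := by
    rw [Real.sinh_eq, hE, ← Real.exp_neg]
  have e3 : Real.cosh (2 * (2 / 3 * y)) = (E ^ 2 + E⁻¹ ^ 2) / 2 := by
    rw [Real.cosh_eq, hE, ← Real.exp_neg, ← Real.exp_nat_mul, ← Real.exp_nat_mul]
    push_cast
    ring_nf
  have e4 : Real.cos (2 * (Real.pi * (2 / 3))) = -(1 / 2) := by
    have : 2 * (Real.pi * (2 / 3)) = Real.pi / 3 + Real.pi := by ring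
    rw [this, Real.cos_add_pi, Real.cos_pi_div_three]
  have e5 : E ^ 3 = Real.exp (2 * y) := by
    rw [hE, ← Real.exp_nat_mul]
    push_cast
    ring_nf
  have hE5 : 5 / 2 ≤ E := by
    by_contra hcon
    push Not at hcon
    have : E ^ 3 < (5 / 2) ^ 3 := pow_lt_pow_left₀ hcon hE0.le (by norm_num)
    rw [e5] at this
    norm_num at this
    linarith
  rw [e1, e2, e3, e4]
  set r := E⁻¹ with hr
  have hr0 : 0 < r := by positivity
  have hEr : E * r = 1 := mul_inv_cancel₀ hE0.ne'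
  have hr5 : r ≤ 2 / 5 := by
    rw [hr]
    have := inv_anti₀ (by norm_num) hE5
    linarith
  have hr2 : r ^ 2 ≤ 4 / 25 := by nlinarith
  have hD : 0 < (E ^ 2 + r ^ 2) / 2 + -(1 / 2) := by nlinarith
  rw [le_div_iff₀ hD]
  have e6 : E - r = E * (1 - r ^ 2) := by
    linear_combination r * hEr
  have e7 : r * E ^ 2 = E := by linear_combination E * hEr
  have e8 : r * (E ^ 2 + r ^ 2 - 1) ≤ E := by nlinarith
  have e9 : 21 / 25 * E ≤ E * (1 - r ^ 2) := by nlinarith
  have e10 : 21 / 25 * r * ((E ^ 2 + r ^ 2) / 2 + -(1 / 2)) =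
    21 / 50 * (r * (E ^ 2 + r ^ 2 - 1)) := by ring
  rw [e10, e6]
  linarith

lemma gg_lower {τ y : ℝ} (hτ : 4 ≤ τ) (hy : Real.log τ < y) :
    21 / 25 * (49 / 50 * Real.exp (-(2 / 3) * y) - τ * Real.exp (-(5 / 3) * y)) ≤
      gg (2 / 3) τ y := by
  have hτ0 : 0 < τ := by linarith
  have hyτ : τ < Real.exp y := (Real.log_lt_iff_lt_exp hτ0).mp hy
  have hy0 : 0 < y := by
    by_contra hcon
    push Not at hcon
    have := Real.exp_le_one_iff.mpr hcon
    linarith
  have hg := gg_nonneg (le_refl _) (by norm_num : (2 / 3 : ℝ) < 1) hτ0 hy0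
  have e1 : Real.exp (-(5 / 3) * y) = Real.exp (-y) * Real.exp (-(2 / 3) * y) := by
    rw [← Real.exp_add]; ring_nf
  have e2 : 21 / 25 * (49 / 50 * Real.exp (-(2 / 3) * y) - τ * Real.exp (-(5 / 3) * y)) =
      (49 / 50 - τ * Real.exp (-y)) * (21 / 25 * Real.exp (-(2 / 3) * y)) := by
    rw [e1]; ring
  rw [e2]
  rcases le_total (49 / 50 - τ * Real.exp (-y)) 0 with h | h
  · refine le_trans ?_ hg
    exact mul_nonpos_of_nonpos_of_nonneg h (by positivity)
  · unfold gg
    have hq := qf_lower (y := y) (by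
      rw [two_mul, Real.exp_add]
      nlinarith)
    apply mul_le_mul _ hq (by positivity)
    · rw [sub_nonneg, Real.exp_le_exp, neg_le_neg_iff]
      apply mul_le_mul_of_nonneg_left _ hτ0.le
      rw [Real.exp_le_exp]
      linarith
    · have h3 := Real.add_one_le_exp (-(τ * Real.exp (-y)))
      have h4 : Real.exp (-(τ * Real.exp y)) ≤ 1 / 50 := by
        have h5 : Real.exp (-(τ * Real.exp y)) ≤ Real.exp (-4) := by
          rw [Real.exp_le_exp, neg_le_neg_iff]
          nlinarith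
        have h6 : Real.exp (-4) ≤ 1 / 50 := by
          have h7 : (50 : ℝ) ≤ Real.exp 4 := by
            have h8 : Real.exp 4 = Real.exp 1 ^ 4 := by
              rw [← Real.exp_nat_mul]
              norm_num
            rw [h8]
            have h9 := Real.exp_one_gt_d9
            have : (2.7 : ℝ) ^ 4 ≤ Real.exp 1 ^ 4 :=
              pow_le_pow_left₀ (by norm_num) (by linarith) 4
            norm_num at this ⊢
            linarith
          rw [Real.exp_neg]
          have := inv_anti₀ (by norm_num) h7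
          linarith
        linarith
      linarith

lemma alg_bd {τ : ℝ} (hτ : 4 ≤ τ) (hτ9 : τ ≤ 9) : alg (2 / 3) τ ≤ -(83 / 500) := by
  have hτ0 : 0 < τ := by linarith
  have h1 : (2 / 3 : ℝ) ≤ 2 / 3 := le_refl _
  have h2 : (2 / 3 : ℝ) < 1 := by norm_num
  have hL : 0 < Real.log τ := Real.log_pos (by linarith)
  rw [alg_eq h1 h2 hτ0, neg_le_neg_iff]
  have i1 := integrableOn_exp_mul_Ioi (a := -(2 / 3)) (by norm_num) (Real.log τ)
  have i2 := integrableOn_exp_mul_Ioi (a := -(5 / 3)) (by norm_num) (Real.log τ)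
  have s1 : ∫ y in Ioi (Real.log τ), gg (2 / 3) τ y ≤ ∫ y in Ioi 0, gg (2 / 3) τ y := by
    apply setIntegral_mono_set (gg_int h1 h2 hτ0).integrableOn
    · filter_upwards [ae_restrict_mem measurableSet_Ioi] with y hy
      exact gg_nonneg h1 h2 hτ0 hy
    · exact (Ioi_subset_Ioi hL.le).eventuallyLE
  have s2 : ∫ y in Ioi (Real.log τ), 21 / 25 * (49 / 50 * Real.exp (-(2 / 3) * y) -
      τ * Real.exp (-(5 / 3) * y)) ≤ ∫ y in Ioi (Real.log τ), gg (2 / 3) τ y := by
    apply setIntegral_mono_on _ (gg_int h1 h2 hτ0).integrableOn measurableSet_Ioi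
    · intro y hy
      exact gg_lower hτ hy
    · exact ((i1.const_mul _).sub (i2.const_mul _)).const_mul _
  have i1' : Integrable (fun y : ℝ => 49 / 50 * Real.exp (-(2 / 3) * y))
    (volume.restrict (Ioi (Real.log τ))) := i1.const_mul _
  have i2' : Integrable (fun y : ℝ => τ * Real.exp (-(5 / 3) * y))
    (volume.restrict (Ioi (Real.log τ))) := i2.const_mul _
  rw [integral_const_mul, integral_sub i1' i2', integral_const_mul, integral_const_mul,
    integral_exp_mul_Ioi (by norm_num), integral_exp_mul_Ioi (by norm_num)] at s2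
  have e1 : τ * Real.exp (-(5 / 3) * Real.log τ) = Real.exp (-(2 / 3) * Real.log τ) := by
    nth_rw 1 [← Real.exp_log hτ0]
    rw [← Real.exp_add]
    ring_nf
  have e2 : 5 / 22 ≤ Real.exp (-(2 / 3) * Real.log τ) := by
    have h3 : Real.exp (2 / 3 * Real.log τ) ≤ 22 / 5 := by
      by_contra hcon
      push Not at hcon
      have h4 : (22 / 5 : ℝ) ^ 3 < Real.exp (2 / 3 * Real.log τ) ^ 3 :=
        pow_lt_pow_left₀ hcon (by norm_num) (by norm_num)
      have h5 : Real.exp (2 / 3 * Real.log τ) ^ 3 = τ ^ 2 := by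
        rw [← Real.exp_nat_mul]
        have : ((3 : ℕ) : ℝ) * (2 / 3 * Real.log τ) = Real.log τ + Real.log τ := by
          push_cast; ring
        rw [this, Real.exp_add, Real.exp_log hτ0]
        ring
      rw [h5] at h4
      nlinarith
    have h6 : -(2 / 3) * Real.log τ = -(2 / 3 * Real.log τ) := by ring
    rw [h6, Real.exp_neg]
    have := inv_anti₀ (Real.exp_pos _) h3
    linarith
  have e3 : 21 / 25 * (49 / 50 * (-Real.exp (-(2 / 3) * Real.log τ) / -(2 / 3)) -
      τ * (-Real.exp (-(5 / 3) * Real.log τ) / -(5 / 3))) =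
      1827 / 2500 * Real.exp (-(2 / 3) * Real.log τ) := by
    linear_combination (-(63 / 125) : ℝ) * e1
  rw [e3] at s2
  linarith

end V1171.MLZ
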