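import Mathlib

set_option autoImplicit false

/-! A rectangle integral with removable singularities, and a contour identity. -/

namespace V1171.MLZ

open MeasureTheory Filter Topology Set Complex

theorem removable (S : Finset ℂ) : ∀ (U : Set ℂ) (_ : IsOpen U) (f : ℂ → ℂ)
    (_ : DifferentiableOn ℂ f (U \ (S : Set ℂ)))
    (_ : ∀ c ∈ S, Tendsto (fun z => (z - c) * f z) (𝓝[≠] c) (𝓝 0)),
    ∃ g : ℂ → ℂ, DifferentiableOn ℂ g U ∧ ∀ z, z ∉ S → g z = f z := by
  classical
  induction S using Finset.induction_on with
  | empty =>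
    intro U _ f hf _
    exact ⟨f, by simpa using hf, fun _ _ => rfl⟩
  | insert c S hc ih =>
    intro U hU f hf hS
    have hV : IsOpen (U \ (S : Set ℂ)) := hU.sdiff S.finite_toSet.isClosed
    by_cases hcU : c ∈ U
    · set f' := Function.update f c (limUnder (𝓝[≠] c) f) with hf'
      have hcV : (U \ (S : Set ℂ)) ∈ 𝓝 c := hV.mem_nhds ⟨hcU, by simpa using hc⟩
      have h1 : DifferentiableOn ℂ f' (U \ (S : Set ℂ)) := by
        apply Complex.differentiableOn_update_limUnder_of_isLittleO hcV
        · apply hf.mono
          intro z hz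
          refine ⟨hz.1.1, ?_⟩
          intro h
          rw [Finset.coe_insert] at h
          rcases h with h | h
          · exact hz.2 h
          · exact hz.1.2 h
        · have h2 : Tendsto (fun z => (z - c) * f z - (z - c) * f c) (𝓝[≠] c) (𝓝 0) := by
            have h3 : Tendsto (fun z : ℂ => (z - c) * f c) (𝓝[≠] c) (𝓝 0) := by
              have h4 : Continuous fun z : ℂ => (z - c) * f c := by fun_prop
              have h5 := (h4.tendsto c).mono_left (nhdsWithin_le_nhds (s := {c}ᶜ))
              simpa using h5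
            have := (hS c (by simp)).sub h3
            simpa using this
          rw [Asymptotics.isLittleO_iff_tendsto']
          · refine h2.congr ?_
            intro z
            rw [div_inv_eq_mul]
            ring
          · filter_upwards [self_mem_nhdsWithin] with z hz h
            exfalso
            rw [inv_eq_zero, sub_eq_zero] at h
            exact hz h
      obtain ⟨g, hg, hg2⟩ := ih U hU f' h1 (by
        intro c' hc'
        have hne : c' ≠ c := by
          rintro rfl
          exact hc hc'
        refine (hS c' (by simp [hc'])).congr' ?_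
        have : {c}ᶜ ∈ 𝓝 c' := isOpen_compl_singleton.mem_nhds hne
        filter_upwards [mem_nhdsWithin_of_mem_nhds this] with z hz
        rw [hf', Function.update_of_ne hz])
      refine ⟨g, hg, fun z hz => ?_⟩
      rw [Finset.mem_insert, not_or] at hz
      rw [hg2 z hz.2, hf', Function.update_of_ne hz.1]
    · have h1 : U \ ((insert c S : Finset ℂ) : Set ℂ) = U \ (S : Set ℂ) := by
        ext z
        rw [Finset.coe_insert]
        constructor
        · rintro ⟨h1, h2⟩
          exact ⟨h1, fun h => h2 (Or.inr h)⟩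
        · rintro ⟨h1, h2⟩
          refine ⟨h1, fun h => ?_⟩
          rcases h with rfl | h
          · exact hcU h1
          · exact h2 h
      rw [h1] at hf
      obtain ⟨g, hg, hg2⟩ := ih U hU f hf fun c' hc' => hS c' (by simp [hc'])
      exact ⟨g, hg, fun z hz => hg2 z fun h => hz (by simp [h])⟩

theorem rect_zero (S : Finset ℂ) (B R : ℝ) (hR : 0 < R) (hB : Real.pi < B) (f : ℂ → ℂ)
    (hf : DifferentiableOn ℂ f ({z : ℂ | |z.im| < B} \ (S : Set ℂ)))
    (hS : ∀ c ∈ S, Tendsto (fun z => (z - c) * f z) (𝓝[≠] c) (𝓝 0))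
    (hin : ∀ c ∈ S, |c.re| < R ∧ |c.im| < Real.pi) :
    (∫ y in (-R)..R, f (y - Real.pi * I)) - (∫ y in (-R)..R, f (y + Real.pi * I)) +
      I * (∫ v in (-Real.pi)..Real.pi, f (R + v * I)) -
      I * (∫ v in (-Real.pi)..Real.pi, f (-R + v * I)) = 0 := by
  have hU : IsOpen {z : ℂ | |z.im| < B} :=
    isOpen_lt (continuous_abs.comp continuous_im) continuous_const
  obtain ⟨g, hg, hg2⟩ := removable S _ hU f hf hS
  have hpi := Real.pi_pos
  have h := Complex.integral_boundary_rect_eq_zero_of_differentiableOn g
    (⟨-R, -Real.pi⟩ : ℂ) ⟨R, Real.pi⟩ (by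
      apply hg.mono
      intro z hz
      rw [mem_reProdIm] at hz
      have h1 := hz.2
      rw [uIcc_of_le (by simp only; linarith)] at h1
      simp only [mem_Icc] at h1
      show |z.im| < B
      rw [abs_lt]
      constructor <;> linarith [h1.1, h1.2])
  simp only [smul_eq_mul] at h
  have e1 : (∫ y in (-R)..R, g (y + ((-Real.pi : ℝ) : ℂ) * I)) =
      ∫ y in (-R)..R, f (y - Real.pi * I) := by
    apply intervalIntegral.integral_congr
    intro y _
    simp only
    have e : ((y : ℂ) + ((-Real.pi : ℝ) : ℂ) * I) = y - Real.pi * I := by push_cast; ring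
    rw [e]
    apply hg2
    intro hm
    have := (hin _ hm).2
    simp [abs_of_pos hpi] at this
  have e2 : (∫ y in (-R)..R, g (y + (Real.pi : ℂ) * I)) =
      ∫ y in (-R)..R, f (y + Real.pi * I) := by
    apply intervalIntegral.integral_congr
    intro y _
    simp only
    apply hg2
    intro hm
    have := (hin _ hm).2
    simp [abs_of_pos hpi] at this
  have e3 : (∫ v in (-Real.pi)..Real.pi, g ((R : ℂ) + v * I)) =
      ∫ v in (-Real.pi)..Real.pi, f (R + v * I) := by
    apply intervalIntegral.integral_congr
    intro y _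
    simp only
    apply hg2
    intro hm
    have := (hin _ hm).1
    simp [abs_of_pos hR] at this
  have e4 : (∫ v in (-Real.pi)..Real.pi, g (((-R : ℝ) : ℂ) + v * I)) =
      ∫ v in (-Real.pi)..Real.pi, f (-R + v * I) := by
    apply intervalIntegral.integral_congr
    intro y _
    simp only
    rw [ofReal_neg]
    apply hg2
    intro hm
    have := (hin _ hm).1
    simp [abs_of_pos hR] at this
  rw [e1, e2, e3, e4] at h
  exact h

theorem lim_inv (D : ℂ → ℂ) (c d : ℂ) (hD : HasDerivAt D d c) (h0 : D c = 0) (hd : d ≠ 0) :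
    Tendsto (fun z => (z - c) * (D z)⁻¹) (𝓝[≠] c) (𝓝 d⁻¹) := by
  have h1 := (hasDerivAt_iff_tendsto_slope.mp hD).inv₀ hd
  refine h1.congr ?_
  intro z
  rw [slope_def_field, h0, sub_zero, inv_div, div_eq_mul_inv]

end V1171.MLZ
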