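import Pool.Agent.V1171.MLZ.Series
import Pool.Agent.V1171.MLZ.Formula
import Pool.Agent.Helper945.LapU

set_option autoImplicit false

/-! Real integral representation of the imaginary part of the Mittag-Leffler function on the
imaginary axis. -/

namespace V1171.MLZ

open MeasureTheory Filter Topology Set Complex

noncomputable def alg (α τ : ℝ) : ℝ := ∫ y, Real.exp (-(τ * Real.exp y)) * qf α y

lemma alg_prod_int {α s : ℝ} (h1 : 2 / 3 ≤ α) (h2 : α < 1) (hs : 0 < s) :
    Integrable (Function.uncurry fun (τ y : ℝ) =>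
      Real.exp (-(s * τ)) * (Real.exp (-(τ * Real.exp y)) * qf α y))
      ((volume.restrict (Ioi (0 : ℝ))).prod volume) := by
  have hb : Integrable (fun p : ℝ × ℝ => Real.exp (-(s * p.1)) * |qf α p.2|)
      ((volume.restrict (Ioi (0 : ℝ))).prod volume) := by
    have h3 : Integrable (fun τ : ℝ => Real.exp (-(s * τ))) (volume.restrict (Ioi (0 : ℝ))) := by
      have h := integrableOn_exp_mul_Ioi (a := -s) (by linarith) 0
      refine h.congr_fun (fun y hy => ?_) measurableSet_Ioi
      ring_nf
    exact h3.mul_prod (qf_int h1 h2).abs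
  apply hb.mono'
  · apply Continuous.aestronglyMeasurable
    have := qf_cont h1 h2
    unfold Function.uncurry
    fun_prop
  · have h4 : ∀ᵐ p : ℝ × ℝ ∂((volume.restrict (Ioi (0 : ℝ))).prod volume), p.1 ∈ Ioi (0 : ℝ) :=
      Measure.quasiMeasurePreserving_fst.ae (ae_restrict_mem measurableSet_Ioi)
    filter_upwards [h4] with p hp
    simp only [Function.uncurry, Real.norm_eq_abs, abs_mul, Real.abs_exp]
    apply mul_le_mul_of_nonneg_left _ (Real.exp_pos _).le
    apply mul_le_of_le_one_left (abs_nonneg _)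
    rw [Real.exp_le_one_iff]
    have := mul_pos (mem_Ioi.mp hp) (Real.exp_pos p.2)
    linarith

lemma alg_lap {α s : ℝ} (h1 : 2 / 3 ≤ α) (h2 : α < 1) (hs : 0 < s) :
    IntegrableOn (fun τ : ℝ => Real.exp (-(s * τ)) * alg α τ) (Ioi 0) ∧
    ∫ τ in Ioi (0 : ℝ), Real.exp (-(s * τ)) * alg α τ = s⁻¹ * ∫ y, Hf α (Real.log s) y := by
  have hp := alg_prod_int h1 h2 hs
  have e1 : ∀ τ : ℝ, Real.exp (-(s * τ)) * alg α τ =
      ∫ y, Real.exp (-(s * τ)) * (Real.exp (-(τ * Real.exp y)) * qf α y) := by
    intro τ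
    unfold alg
    rw [integral_const_mul]
  constructor
  · simp only [e1]
    exact hp.integral_prod_left
  · simp only [e1]
    rw [integral_integral_swap hp, ← integral_const_mul]
    apply integral_congr_ae
    refine Eventually.of_forall fun y => ?_
    simp only
    have hpos : 0 < s + Real.exp y := by positivity
    have e2 : ∀ τ : ℝ, Real.exp (-(s * τ)) * (Real.exp (-(τ * Real.exp y)) * qf α y) =
        Real.exp (-(s + Real.exp y) * τ) * qf α y := by
      intro τ
      rw [← mul_assoc, ← Real.exp_add]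
      ring_nf
    simp only [e2]
    rw [integral_mul_const, integral_exp_mul_Ioi (by linarith)]
    unfold Hf
    rw [Real.exp_sub, Real.exp_log hs]
    simp only [mul_zero, Real.exp_zero]
    field_simp

lemma alg_cont {α : ℝ} (h1 : 2 / 3 ≤ α) (h2 : α < 1) : ContinuousOn (alg α) (Ioi 0) := by
  unfold alg
  apply continuousOn_of_dominated (bound := fun y => |qf α y|)
  · intro τ _
    apply Continuous.aestronglyMeasurable
    have := qf_cont h1 h2
    fun_prop
  · intro τ hτ
    refine Eventually.of_forall fun y => ?_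
    rw [Real.norm_eq_abs, abs_mul, Real.abs_exp]
    apply mul_le_of_le_one_left (abs_nonneg _)
    rw [Real.exp_le_one_iff]
    have := mul_pos (mem_Ioi.mp hτ) (Real.exp_pos y)
    linarith
  · exact (qf_int h1 h2).abs
  · refine Eventually.of_forall fun y => ?_
    fun_prop

lemma osc_lap {θ s : ℝ} (hs : 1 < s) :
    IntegrableOn (fun τ : ℝ => Real.exp (-(s * τ)) *
      (Real.exp (τ * Real.cos θ) * Real.sin (τ * Real.sin θ))) (Ioi 0) ∧
    ∫ τ in Ioi (0 : ℝ), Real.exp (-(s * τ)) *
      (Real.exp (τ * Real.cos θ) * Real.sin (τ * Real.sin θ)) =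
      Real.sin θ / (s ^ 2 - 2 * s * Real.cos θ + 1) := by
  set a : ℂ := ⟨-s + Real.cos θ, Real.sin θ⟩ with ha
  have har : a.re < 0 := by
    rw [ha]
    simp only
    linarith [Real.cos_le_one θ]
  have e1 : ∀ τ : ℝ, Real.exp (-(s * τ)) *
      (Real.exp (τ * Real.cos θ) * Real.sin (τ * Real.sin θ)) = (cexp (a * τ)).im := by
    intro τ
    rw [Complex.exp_im, ← mul_assoc, ← Real.exp_add]
    have e2 : (a * τ).re = -(s * τ) + τ * Real.cos θ := by
      rw [ha]; simp; ring
    have e3 : (a * τ).im = τ * Real.sin θ := by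
      rw [ha]; simp; ring
    rw [e2, e3]
  have hint := integrableOn_exp_mul_complex_Ioi har 0
  constructor
  · simp only [e1]
    exact hint.im
  · simp only [e1]
    have h4 := integral_im hint
    simp only [RCLike.im_eq_complex_im] at h4
    rw [h4, integral_exp_mul_complex_Ioi har]
    simp only [ofReal_zero, mul_zero, Complex.exp_zero]
    rw [neg_div, one_div, Complex.neg_im, Complex.inv_im, neg_div, neg_neg, Complex.normSq_apply]
    rw [ha]
    simp only
    congr 1
    linear_combination Real.sin_sq_add_cos_sq θ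

theorem ef_im_eq {α θ : ℝ} (h1 : 2 / 3 ≤ α) (h2 : α < 1) (hθ : 2 * (α * θ) = Real.pi) {τ : ℝ}
    (hτ : 0 < τ) :
    (ef α τ).im = α⁻¹ * (Real.exp (τ * Real.cos θ) * Real.sin (τ * Real.sin θ)) -
      Real.sin (Real.pi * α) / Real.pi * alg α τ := by
  have hpi := Real.pi_pos
  have hα : (0 : ℝ) < α := by linarith
  set w : ℝ → ℝ := fun τ => (ef α τ).im - (α⁻¹ * (Real.exp (τ * Real.cos θ) *
    Real.sin (τ * Real.sin θ)) - Real.sin (Real.pi * α) / Real.pi * alg α τ) with hw
  have hefc : ContinuousOn (fun t : ℝ => ef α t) (Ioi 0) := by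
    intro t ht
    have h3 := ef_cont (M := t + 1) (by linarith [mem_Ioi.mp ht])
    have h4 : ContinuousOn (fun t' : ℝ => ef α t') (Icc 0 (t + 1)) :=
      h3.comp (f := fun t' : ℝ => (α, t')) (by fun_prop) (fun t' ht' => ⟨⟨h1, h2.le⟩, ht'⟩)
    exact (h4.continuousAt (Icc_mem_nhds ht (by linarith))).continuousWithinAt
  have hwc : ContinuousOn w (Ioi 0) := by
    have h3 := alg_cont h1 h2
    have h5 : ContinuousOn (fun t : ℝ => (ef α t).im) (Ioi 0) :=
      Complex.continuous_im.comp_continuousOn hefc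
    rw [hw]
    fun_prop
  have key : ∀ s : ℝ, 1 < s → IntegrableOn (fun t => Real.exp (-(s * t)) * w t) (Ioi 0) ∧
      ∫ t in Ioi (0 : ℝ), Real.exp (-(s * t)) * w t = 0 := by
    intro s hs
    have hs0 : 0 < s := by linarith
    obtain ⟨a1, a2⟩ := ef_lap_im hα hs
    obtain ⟨b1, b2⟩ := osc_lap (θ := θ) hs
    obtain ⟨c1, c2⟩ := alg_lap h1 h2 hs0
    have e1 : ∀ t : ℝ, Real.exp (-(s * t)) * w t = Real.exp (-(s * t)) * (ef α t).im -
        (α⁻¹ * (Real.exp (-(s * t)) *
          (Real.exp (t * Real.cos θ) * Real.sin (t * Real.sin θ))) -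
        Real.sin (Real.pi * α) / Real.pi * (Real.exp (-(s * t)) * alg α t)) := by
      intro t
      rw [hw]
      ring
    simp only [e1]
    have b1' : Integrable (fun t : ℝ => α⁻¹ * (Real.exp (-(s * t)) *
        (Real.exp (t * Real.cos θ) * Real.sin (t * Real.sin θ)))) (volume.restrict (Ioi 0)) :=
      b1.const_mul _
    have c1' : Integrable (fun t : ℝ => Real.sin (Real.pi * α) / Real.pi *
        (Real.exp (-(s * t)) * alg α t)) (volume.restrict (Ioi 0)) := c1.const_mul _
    have d1 : Integrable (fun t : ℝ => α⁻¹ * (Real.exp (-(s * t)) *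
        (Real.exp (t * Real.cos θ) * Real.sin (t * Real.sin θ))) -
        Real.sin (Real.pi * α) / Real.pi * (Real.exp (-(s * t)) * alg α t))
        (volume.restrict (Ioi 0)) := b1'.sub c1'
    refine ⟨Integrable.sub a1 d1, ?_⟩
    rw [integral_sub a1 d1, integral_sub b1' c1', integral_const_mul, integral_const_mul,
      a2, b2, c2, contour h1 h2 hθ (Real.log s), Real.exp_log hs0]
    field_simp
    ring
  have h := Pool.Agent.Helper945.LapU.laplace_unique (fun t => Real.exp (-t) * w t)
    (ContinuousOn.mul (by fun_prop) hwc) (by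
      intro n hn
      have h3 := (key ((n : ℝ) + 1) (by
        have : (0 : ℝ) < n := by exact_mod_cast hn
        linarith)).1
      refine h3.congr_fun (fun t _ => ?_) measurableSet_Ioi
      simp only
      rw [← mul_assoc, ← Real.exp_add]
      ring_nf) (by
      intro n hn
      have h3 := (key ((n : ℝ) + 1) (by
        have : (0 : ℝ) < n := by exact_mod_cast hn
        linarith)).2
      refine Eq.trans ?_ h3
      apply setIntegral_congr_fun measurableSet_Ioi
      intro t _
      simp only
      rw [← mul_assoc, ← Real.exp_add]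
      ring_nf) τ hτ
  rcases mul_eq_zero.mp h with h' | h'
  · exact absurd h' (Real.exp_pos _).ne'
  · rw [hw] at h'
    linarith

end V1171.MLZ
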