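import Pool.Agent.V11191.ML.Series

set_option autoImplicit false

/-! The Mittag-Leffler function along the imaginary axis: joint continuity, Laplace transform. -/

namespace V1171.MLZ

open MeasureTheory Filter Topology Set Complex

noncomputable def tm (k : ℕ) (α τ : ℝ) : ℂ :=
  (((τ ^ α : ℝ) : ℂ) * I) ^ k * (((Real.Gamma (α * k + 1))⁻¹ : ℝ) : ℂ)

noncomputable def ef (α τ : ℝ) : ℂ := ∑' k : ℕ, tm k α τ

lemma gam_pos {α : ℝ} (hα : 0 < α) (k : ℕ) : 0 < Real.Gamma (α * k + 1) :=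
  Real.Gamma_pos_of_pos (by positivity)

lemma tm_norm (k : ℕ) {α τ : ℝ} (hα : 0 < α) (hτ : 0 ≤ τ) :
    ‖tm k α τ‖ = (τ ^ α) ^ k * (Real.Gamma (α * k + 1))⁻¹ := by
  unfold tm
  rw [norm_mul, norm_pow, norm_mul, Complex.norm_I, mul_one, Complex.norm_real, Complex.norm_real,
    Real.norm_of_nonneg (Real.rpow_nonneg hτ _),
    Real.norm_of_nonneg (inv_nonneg.mpr (gam_pos hα k).le)]

lemma tm_bd (k : ℕ) {α τ M : ℝ} (h1 : 2 / 3 ≤ α) (h2 : α ≤ 1) (hτ : 0 ≤ τ) (hM : τ ≤ M)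
    (hM1 : 1 ≤ M) : ‖tm k α τ‖ ≤ |2 * M| ^ k * Pool.Agent.V11191.ML.cf (2 / 3) 2 k := by
  have hα : (0 : ℝ) < α := by linarith
  rw [tm_norm k hα hτ, abs_of_nonneg (by linarith), mul_pow, mul_comm (2 ^ k), mul_assoc]
  have e1 : τ ^ α ≤ M := by
    calc τ ^ α ≤ M ^ α := Real.rpow_le_rpow hτ hM hα.le
      _ ≤ M ^ (1 : ℝ) := Real.rpow_le_rpow_of_exponent_le hM1 h2
      _ = M := Real.rpow_one M
  apply mul_le_mul (pow_le_pow_left₀ (Real.rpow_nonneg hτ _) e1 k) _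
    (inv_nonneg.mpr (gam_pos hα k).le) (by positivity)
  unfold Pool.Agent.V11191.ML.cf
  have hk : (0 : ℝ) ≤ k := Nat.cast_nonneg k
  have e2 : Real.Gamma (α * k + 2) = (α * k + 1) * Real.Gamma (α * k + 1) := by
    rw [← Real.Gamma_add_one (by positivity)]
    congr 1
    ring
  have e3 : Real.Gamma (2 / 3 * k + 2) ≤ Real.Gamma (α * k + 2) := by
    apply Real.Gamma_strictMonoOn_Ici.monotoneOn
    · rw [mem_Ici]; nlinarith
    · rw [mem_Ici]; nlinarith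
    · nlinarith
  have e4 : 0 < Real.Gamma (2 / 3 * k + 2) := Real.Gamma_pos_of_pos (by positivity)
  have e5 : α * k + 1 ≤ 2 ^ k := by
    have h3 : ((k : ℕ) : ℝ) + 1 ≤ 2 ^ k := by
      have h4 : k + 1 ≤ 2 ^ k := Nat.lt_two_pow_self
      exact_mod_cast h4
    nlinarith
  rw [← div_eq_mul_inv, inv_eq_one_div, div_le_div_iff₀ (gam_pos hα k) e4, one_mul]
  calc Real.Gamma (2 / 3 * k + 2) ≤ (α * k + 1) * Real.Gamma (α * k + 1) := by rw [← e2]; exact e3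
    _ ≤ 2 ^ k * Real.Gamma (α * k + 1) := mul_le_mul_of_nonneg_right e5 (gam_pos hα k).le

lemma sum_bd (M : ℝ) : Summable fun k : ℕ => |2 * M| ^ k * Pool.Agent.V11191.ML.cf (2 / 3) 2 k :=
  Pool.Agent.V11191.ML.summable_ml (by norm_num) (by norm_num) (by norm_num) _

lemma ef_cont {M : ℝ} (hM : 1 ≤ M) :
    ContinuousOn (fun p : ℝ × ℝ => ef p.1 p.2) (Icc (2 / 3) 1 ×ˢ Icc 0 M) := by
  unfold ef
  apply continuousOn_tsum (u := fun k : ℕ => |2 * M| ^ k * Pool.Agent.V11191.ML.cf (2 / 3) 2 k)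
    _ (sum_bd M)
  · rintro k ⟨α, τ⟩ ⟨hα, hτ⟩
    exact tm_bd k hα.1 hα.2 hτ.1 hτ.2 hM
  · intro k p hp
    have hα : (0 : ℝ) < p.1 := by linarith [hp.1.1]
    apply ContinuousAt.continuousWithinAt
    unfold tm
    apply ContinuousAt.mul
    · apply ContinuousAt.pow
      apply ContinuousAt.mul _ continuousAt_const
      apply Complex.continuous_ofReal.continuousAt.comp
      exact ContinuousAt.rpow continuousAt_snd continuousAt_fst (Or.inr hα)
    · apply Complex.continuous_ofReal.continuousAt.comp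
      refine ContinuousAt.inv₀ (f := fun x : ℝ × ℝ => Real.Gamma (x.1 * k + 1)) ?_
        (gam_pos hα k).ne'
      have h3 : ContinuousAt Real.Gamma (p.1 * k + 1) := by
        apply (Real.differentiableAt_Gamma _).continuousAt
        intro m
        have : (0 : ℝ) ≤ m := Nat.cast_nonneg m
        have : (0 : ℝ) ≤ p.1 * k := by positivity
        linarith
      exact ContinuousAt.comp (f := fun x : ℝ × ℝ => x.1 * k + 1) h3 (by fun_prop)

lemma ef_summable {α τ : ℝ} (h1 : 2 / 3 ≤ α) (h2 : α ≤ 1) (hτ : 0 ≤ τ) :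
    Summable fun k => tm k α τ :=
  Summable.of_norm_bounded (sum_bd (τ + 1)) fun k =>
    tm_bd k h1 h2 hτ (by linarith) (by linarith)

/-- Laplace transform -/
lemma tm_lap (k : ℕ) {α s : ℝ} (hα : 0 < α) (hs : 0 < s) :
    IntegrableOn (fun τ : ℝ => ((Real.exp (-(s * τ)) : ℝ) : ℂ) * tm k α τ) (Ioi 0) ∧
    ∫ τ in Ioi (0 : ℝ), ((Real.exp (-(s * τ)) : ℝ) : ℂ) * tm k α τ =
      (I * ((s⁻¹ ^ α : ℝ) : ℂ)) ^ k * (s⁻¹ : ℝ) ∧
    ∫ τ in Ioi (0 : ℝ), ‖((Real.exp (-(s * τ)) : ℝ) : ℂ) * tm k α τ‖ =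
      (s⁻¹ ^ α) ^ k * s⁻¹ := by
  have hpos : 0 < α * k + 1 := by positivity
  have hG := (gam_pos hα k).ne'
  have hs' : (0 : ℝ) ≤ s⁻¹ := by positivity
  have e0 : (1 / s) ^ (α * k + 1) = (s⁻¹ ^ α) ^ k * s⁻¹ := by
    rw [one_div, Real.rpow_add_one (by positivity), Real.rpow_mul hs', Real.rpow_natCast]
  have e1 : EqOn (fun τ : ℝ => ((Real.exp (-(s * τ)) : ℝ) : ℂ) * tm k α τ)
      (fun τ : ℝ => (((τ ^ (α * k + 1 - 1) * Real.exp (-(s * τ))) *
        (Real.Gamma (α * k + 1))⁻¹ : ℝ) : ℂ) * I ^ k) (Ioi 0) := by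
    intro τ hτ
    simp only
    unfold tm
    rw [add_sub_cancel_right, Real.rpow_mul (le_of_lt hτ), Real.rpow_natCast, mul_pow]
    push_cast
    ring
  have hI := Real.integral_rpow_mul_exp_neg_mul_Ioi hpos hs
  have hint : IntegrableOn (fun τ : ℝ => τ ^ (α * k + 1 - 1) * Real.exp (-(s * τ))) (Ioi 0) := by
    apply Integrable.of_integral_ne_zero
    rw [hI]
    have := gam_pos hα k
    positivity
  have hint2 : IntegrableOn (fun τ : ℝ => (((τ ^ (α * k + 1 - 1) * Real.exp (-(s * τ))) *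
        (Real.Gamma (α * k + 1))⁻¹ : ℝ) : ℂ) * I ^ k) (Ioi 0) :=
    ((hint.mul_const _).ofReal).mul_const _
  refine ⟨hint2.congr_fun e1.symm measurableSet_Ioi, ?_, ?_⟩
  · rw [setIntegral_congr_fun measurableSet_Ioi e1, integral_mul_const, integral_complex_ofReal,
      integral_mul_const, hI, e0, mul_pow]
    rw [mul_inv_cancel_right₀ hG]
    push_cast
    ring
  · have e2 : EqOn (fun τ : ℝ => ‖((Real.exp (-(s * τ)) : ℝ) : ℂ) * tm k α τ‖)
        (fun τ : ℝ => (τ ^ (α * k + 1 - 1) * Real.exp (-(s * τ))) *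
        (Real.Gamma (α * k + 1))⁻¹) (Ioi 0) := by
      intro τ hτ
      simp only
      rw [norm_mul, tm_norm k hα (le_of_lt hτ), Complex.norm_real, Real.norm_of_nonneg
        (Real.exp_pos _).le, add_sub_cancel_right, Real.rpow_mul (le_of_lt hτ), Real.rpow_natCast]
      ring
    rw [setIntegral_congr_fun measurableSet_Ioi e2, integral_mul_const, hI, e0,
      mul_inv_cancel_right₀ hG]

lemma ef_lap {α s : ℝ} (hα : 0 < α) (hs : 1 < s) :
    ∫ τ in Ioi (0 : ℝ), ((Real.exp (-(s * τ)) : ℝ) : ℂ) * ef α τ =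
      (1 - I * ((s⁻¹ ^ α : ℝ) : ℂ))⁻¹ * (s⁻¹ : ℝ) := by
  have hs0 : 0 < s := by linarith
  have hq0 : 0 ≤ s⁻¹ ^ α := Real.rpow_nonneg (by positivity) _
  have hq1 : s⁻¹ ^ α < 1 := Real.rpow_lt_one (by positivity) (inv_lt_one_of_one_lt₀ hs) hα
  have h1 := hasSum_integral_of_summable_integral_norm
    (F := fun (k : ℕ) (τ : ℝ) => ((Real.exp (-(s * τ)) : ℝ) : ℂ) * tm k α τ)
    (μ := volume.restrict (Ioi (0 : ℝ))) (fun k => (tm_lap k hα hs0).1) (by
      simp only [(tm_lap _ hα hs0).2.2]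
      exact (summable_geometric_of_lt_one hq0 hq1).mul_right _)
  have h2 : ∀ τ : ℝ, ∑' k : ℕ, ((Real.exp (-(s * τ)) : ℝ) : ℂ) * tm k α τ =
      ((Real.exp (-(s * τ)) : ℝ) : ℂ) * ef α τ := fun τ => tsum_mul_left
  simp only [h2, (tm_lap _ hα hs0).2.1] at h1
  have h3 : HasSum (fun k : ℕ => (I * ((s⁻¹ ^ α : ℝ) : ℂ)) ^ k * ((s⁻¹ : ℝ) : ℂ))
      ((1 - I * ((s⁻¹ ^ α : ℝ) : ℂ))⁻¹ * (s⁻¹ : ℝ)) := by
    apply HasSum.mul_right
    apply hasSum_geometric_of_norm_lt_one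
    rw [norm_mul, Complex.norm_I, one_mul, Complex.norm_real, Real.norm_of_nonneg hq0]
    exact hq1
  exact h1.unique h3

lemma ef_lap_im {α s : ℝ} (hα : 0 < α) (hs : 1 < s) :
    IntegrableOn (fun τ : ℝ => Real.exp (-(s * τ)) * (ef α τ).im) (Ioi 0) ∧
    ∫ τ in Ioi (0 : ℝ), Real.exp (-(s * τ)) * (ef α τ).im =
      s⁻¹ * (Real.exp (α * Real.log s) + Real.exp (-(α * Real.log s)))⁻¹ := by
  have hs0 : 0 < s := by linarith
  have hq0 : 0 < s⁻¹ ^ α := Real.rpow_pos_of_pos (by positivity) _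
  have hne : (1 - I * ((s⁻¹ ^ α : ℝ) : ℂ)) ≠ 0 := by
    intro h
    have := congrArg Complex.re h
    simp at this
  have h1 := ef_lap hα hs
  have h2 : IntegrableOn (fun τ : ℝ => ((Real.exp (-(s * τ)) : ℝ) : ℂ) * ef α τ) (Ioi 0) := by
    apply Integrable.of_integral_ne_zero
    rw [h1]
    apply mul_ne_zero (inv_ne_zero hne)
    have : (s⁻¹ : ℝ) ≠ 0 := by positivity
    exact_mod_cast this
  have h3 : ∀ τ : ℝ, Real.exp (-(s * τ)) * (ef α τ).im =
      (((Real.exp (-(s * τ)) : ℝ) : ℂ) * ef α τ).im := by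
    intro τ
    rw [Complex.im_ofReal_mul]
  constructor
  · simp only [h3]
    exact h2.im
  · simp only [h3]
    have h4 := integral_im h2
    simp only [RCLike.im_eq_complex_im] at h4
    rw [h4, h1]
    have e1 : s⁻¹ ^ α = Real.exp (-(α * Real.log s)) := by
      rw [Real.inv_rpow hs0.le, Real.rpow_def_of_pos hs0, ← Real.exp_neg]
      ring_nf
    have e2 : Real.exp (α * Real.log s) = (s⁻¹ ^ α)⁻¹ := by
      rw [e1, ← Real.exp_neg, neg_neg]
    rw [← e1, e2]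
    set q := s⁻¹ ^ α with hq
    have hc : ((1 - I * ((q : ℝ) : ℂ))⁻¹ * ((s⁻¹ : ℝ) : ℂ)).im = s⁻¹ * (q / (1 + q ^ 2)) := by
      rw [Complex.im_mul_ofReal, Complex.inv_im]
      simp [Complex.normSq_apply]
      ring
    rw [hc]
    congr 1
    field_simp

end V1171.MLZ
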